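import Pool.Agent.H73.EQD.Asm

/-!
# Equivariant isotopies and the final theorem, from the modules
-/

open Real Set Topology

namespace EQD

/-- `D₁` and `D₂` are equivariantly isotopic in the topological category: there is a continuous
path of homeomorphisms `H t` of `B⁴` from the identity, each of them fixing `S³` pointwise and
commuting with the involution, with `H 1` carrying `D₁` onto `D₂`. -/
def TopEquivIsotopic (D₁ D₂ : Set E4) : Prop :=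
  ∃ H : unitInterval → (↥B4 ≃ₜ ↥B4), Continuous (fun q : unitInterval × ↥B4 => H q.1 q.2) ∧
    (∀ x, H 0 x = x) ∧ (∀ t, ∀ x : ↥B4, (x : E4) ∈ S3 → H t x = x) ∧
    (∀ t, ∀ x y : ↥B4, (y : E4) = rho x → (H t y : E4) = rho (H t x)) ∧
    (∀ x : ↥B4, (x : E4) ∈ D₁ ↔ (H 1 x : E4) ∈ D₂)

/-- `D₁` and `D₂` are equivariantly isotopic in the smooth category: the isotopy of
`SmoothIsotopic` can be chosen such that each stage commutes with the involution on `B⁴`. -/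
def SmoothEquivIsotopic (D₁ D₂ : Set E4) : Prop :=
  ∃ H H' : ℝ → E4 → E4, ContDiff ℝ (⊤ : ℕ∞) (fun q : ℝ × E4 => H q.1 q.2) ∧
    ContDiff ℝ (⊤ : ℕ∞) (fun q : ℝ × E4 => H' q.1 q.2) ∧
    (∀ t x, H' t (H t x) = x) ∧ (∀ t x, H t (H' t x) = x) ∧
    (∀ t, ∀ x ∈ B4, H t x ∈ B4) ∧ (∀ t, ∀ x ∈ B4, H' t x ∈ B4) ∧
    (∀ t, ∀ x ∈ S3, H t x = x) ∧ (∀ x, H 0 x = x) ∧
    (∀ t, ∀ x ∈ B4, H t (rho x) = rho (H t x)) ∧ H 1 '' D₁ = D₂

/-- a homeomorphism of `B⁴` fixing `S³` pointwise, commuting with the involution and carrying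
`D₁` onto `D₂` -/
def EquivHomeo (D₁ D₂ : Set E4) : Prop :=
  ∃ Φ : ↥B4 ≃ₜ ↥B4, (∀ x : ↥B4, (x : E4) ∈ S3 → Φ x = x) ∧
    (∀ x y : ↥B4, (y : E4) = rho x → (Φ y : E4) = rho (Φ x)) ∧
    (∀ x : ↥B4, (x : E4) ∈ D₁ ↔ (Φ x : E4) ∈ D₂)

lemma TopEquivIsotopic.equivHomeo {D₁ D₂ : Set E4} (h : TopEquivIsotopic D₁ D₂) :
    EquivHomeo D₁ D₂ := by
  obtain ⟨H, _, _, h1, h2, h3⟩ := h
  exact ⟨H 1, h1 1, h2 1, h3⟩

lemma SmoothEquivIsotopic.equivHomeo {D₁ D₂ : Set E4} (h : SmoothEquivIsotopic D₁ D₂) :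
    EquivHomeo D₁ D₂ := by
  obtain ⟨H, H', hc, hc', h1, h2, hB, hB', hS, -, hρ, hD⟩ := h
  have c1 : Continuous (H 1) := hc.continuous.comp (Continuous.prodMk continuous_const continuous_id)
  have c2 : Continuous (H' 1) :=
    hc'.continuous.comp (Continuous.prodMk continuous_const continuous_id)
  refine ⟨⟨⟨fun x => ⟨H 1 x, hB 1 x x.2⟩, fun x => ⟨H' 1 x, hB' 1 x x.2⟩, ?_, ?_⟩, ?_, ?_⟩,
    ?_, ?_, ?_⟩
  · intro x; exact Subtype.ext (h1 1 x)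
  · intro x; exact Subtype.ext (h2 1 x)
  · fun_prop
  · fun_prop
  · intro x hx
    exact Subtype.ext (hS 1 x hx)
  · intro x y hxy
    change H 1 y = rho (H 1 x)
    rw [hxy]
    exact hρ 1 x x.2
  · intro x
    change _ ↔ H 1 x ∈ D₂
    rw [← hD]
    constructor
    · intro hx; exact ⟨x, hx, rfl⟩
    · rintro ⟨y, hy, he⟩
      have : y = x := by rw [← h1 1 y, he, h1 1]
      rw [← this]; exact hy

theorem main (hEXI : S_EXI) (hDISK1 : S_DISK1) :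
    IsSNAKnot K0 ∧ ∃ D₁ D₂ : Set E4,
      IsSliceDisk K0 D₁ ∧ IsSliceDisk K0 D₂ ∧ rho '' D₁ = D₁ ∧ rho '' D₂ = D₂ ∧
      SmoothIsotopic D₁ D₂ ∧
      ¬ SmoothEquivIsotopic D₁ D₂ ∧ ¬ TopEquivIsotopic D₁ D₂ ∧ ¬ EquivHomeo D₁ D₂ := by
  obtain ⟨s1, s2, s3, _, s5, s6⟩ := slice hDISK1 disk2
  have hno : ¬ EquivHomeo Ds (Rq '' Ds) := by
    rintro ⟨Φ, h1, h2, h3⟩
    exact no_equiv_homeo nex_final hEXI bend Φ h1 h2 h3
  have hDs : Ds ⊆ B4 := by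
    obtain ⟨e, _, _, _, h4, _, h6, h7⟩ := s1
    rintro _ hx
    rw [← h4] at hx
    obtain ⟨h, hh, rfl⟩ := hx
    rw [Metric.mem_closedBall] at hh
    rw [B4, Metric.mem_closedBall, dist_zero_right]
    rcases hh.lt_or_eq with h8 | h8
    · exact (h6 h h8).le
    · exact (h7 h h8).1.le
  exact ⟨knot, Ds, Rq '' Ds, s1, s2, s3, s5, iso Ds hDs s6,
    fun h => hno h.equivHomeo, fun h => hno h.equivHomeo, hno⟩

end EQD
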