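import Pool.Agent.H73.EQD.Defs

/-!
# Statements of the modules of project EQD
-/

open Real Set Topology

namespace EQD

/-! ## Module TC: transport along segments in coverings of subsets of `R⁴` -/

section TC

variable {X : Set E4} {C : Type} [TopologicalSpace C] {p : C → ↥X}

/-- straight path in `X` -/
noncomputable def segC (x y : ↥X) (h : segment ℝ (x : E4) (y : E4) ⊆ X) :
    C(unitInterval, ↥X) :=
  ⟨fun t => ⟨AffineMap.lineMap (x : E4) (y : E4) (t : ℝ), h (by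
      rw [segment_eq_image_lineMap]
      exact ⟨(t : ℝ), t.2, rfl⟩)⟩, by
    refine Continuous.subtype_mk ?_ _
    simp only [AffineMap.lineMap_apply]
    fun_prop⟩

open Classical in
/-- endpoint of the lift, starting at `c`, of the straight path from `p c` to `y`
(and `c` if this segment is not contained in `X`) -/
noncomputable def tr (hp : IsCoveringMap p) (c : C) (y : ↥X) : C :=
  if h : segment ℝ (p c : E4) (y : E4) ⊆ X then
    hp.liftPath (segC (p c) y h) c (by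
      apply Subtype.ext; simp [segC]) 1
  else c

end TC

/-- Module TC. -/
def S_TC : Prop :=
  ∀ (X : Set E4) (C : Type) (_ : TopologicalSpace C) (p : C → ↥X) (hp : IsCoveringMap p),
    (∀ (c : C) (y : ↥X), segment ℝ (p c : E4) (y : E4) ⊆ X → p (tr hp c y) = y) ∧
    (∀ c : C, tr hp c (p c) = c) ∧
    (∀ (g : C(unitInterval, C)) (z : ↥X),
      (∀ t, segment ℝ (p (g t) : E4) (z : E4) ⊆ X) → tr hp (g 0) z = tr hp (g 1) z) ∧
    (∀ (th : C → C) (τ : E4 → E4), Continuous th → (∀ c, (p (th c) : E4) = τ (p c)) →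
      (∀ (x y : E4) (t : ℝ), τ (AffineMap.lineMap x y t) = AffineMap.lineMap (τ x) (τ y) t) →
      ∀ (c : C) (y : ↥X) (hy : τ y ∈ X), segment ℝ (p c : E4) (y : E4) ⊆ X →
        th (tr hp c y) = tr hp (th c) ⟨τ y, hy⟩) ∧
    (∀ c : C, (∀ᶠ y : ↥X in 𝓝 (p c), segment ℝ (p c : E4) (y : E4) ⊆ X) →
      ContinuousAt (fun y => tr hp c y) (p c)) ∧
    (∀ (c : C) (γ : C(unitInterval, ↥X)), (∀ t, segment ℝ (p c : E4) (γ t : E4) ⊆ X) →
      Continuous (fun t => tr hp c (γ t)))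

/-! ## Modules on the open book and the disk `Dtop M` -/

/-- Module CLO: the disk is closed and misses the open wedges. -/
def S_CLO : Prop :=
  ∀ M, Good M → IsClosed (Dtop M) ∧ ∀ j, ∀ p ∈ Wd j, p ∉ Dtop M

/-- Module LC: labels are locally constant. -/
def S_LC : Prop :=
  ∀ M, Good M → ∀ j, ∀ v, v ∈ Pg j → v ∉ Dtop M →
    ∀ᶠ v' in 𝓝 v, v' ∈ Pg j → v' ∉ Dtop M → lab M j v' = lab M j v

/-- Module TAB: the label tuples along the binding. -/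
def S_TAB : Prop :=
  ∀ M, Good M → ∀ v : E4, v 1 = 0 → v 2 = 0 → v ∉ Dtop M → ∃ i, ∀ j, lab M j v = tab i j

/-- Module REF: the reference points realise the ten tuples. -/
def S_REF : Prop :=
  ∀ M, Good M → ∀ i, rf M i ∈ B4 ∧ rf M i ∉ Dtop M ∧ ∀ j, lab M j (rf M i) = tab i j

/-- Module CONN: points of page `j` outside the disk with the same label can be joined there. -/
def S_CONN : Prop :=
  ∀ M, Good M → ∀ j, ∀ v v' : E4, v ∈ Pg j → v ∈ B4 → v ∉ Dtop M →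
    v' ∈ Pg j → v' ∈ B4 → v' ∉ Dtop M → lab M j v = lab M j v' →
    JoinedIn (Pg j ∩ (B4 \ Dtop M)) v v'

/-- Module NEX: no symmetric covering for `ρ̄`. -/
def S_NEX : Prop := ∀ M, Good M → ¬ HasSymCover (Dtop M) rho

/-- Module EXI: a symmetric covering for `ρ̄'`. -/
def S_EXI : Prop := ∀ M, Good M → HasSymCover (Dtop M) rhp

/-! ## The smooth disk -/

/-- shorthand -/
noncomputable abbrev ST : ℝ → ℝ := Real.smoothTransition

/-- angle function of the finger -/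
noncomputable def fA (τ : ℝ) : ℝ := π * (ST ((4 - τ) / 3) + ST ((9 - τ) / 5))
/-- radial factor of the finger -/
noncomputable def fN (τ : ℝ) : ℝ := 1 + ST (τ - 1) * ST (4 - τ) - ST (τ - 4) * ST (9 - τ) / 2
/-- bending parameter -/
noncomputable def fc (χ : ℝ) : ℝ := ST (χ - 1 / 4) + ST (χ - π - 1 / 4)
/-- first component of the (unnormalised) direction -/
noncomputable def fV1 (c : ℝ) : ℝ := 1 - 3 * c / 4
/-- second component of the (unnormalised) direction -/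
noncomputable def fV2 (c : ℝ) : ℝ := c / 4
/-- norm of the direction -/
noncomputable def fVn (c : ℝ) : ℝ := √(fV1 c ^ 2 + fV2 c ^ 2)

/-- squared distance from `(1/4, 1/2)` in units of `1/64` -/
noncomputable def ft (a b : ℝ) : ℝ := 4096 * ((a - 1 / 4) ^ 2 + (b - 1 / 2) ^ 2)

/-- the finger around `(1/4, 1/2)` -/
noncomputable def eP (a b : ℝ) : E4 :=
  let τ := ft a b
  let r := 1 / 4 + fN τ * (a - 1 / 4)
  let s := 1 / 2 + fN τ * (b - 1 / 2)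
  let χ := fA τ
  !₂[-(r * sin χ), r * cos χ * (fV1 (fc χ) / fVn (fc χ)),
    r * cos χ * (fV2 (fc χ) / fVn (fc χ)), s]

/-- the flat plane -/
def e0 (a b : ℝ) : E4 := !₂[0, a, 0, b]

/-- the parametrisation of the disk `D` -/
noncomputable def eD (h : E2) : E4 :=
  e0 (h 0) (h 1) + (eP (h 0) (h 1) - e0 (h 0) (h 1)) +
    (rho (eP (-h 0) (h 1)) - e0 (h 0) (h 1)) +
    (rhp (eP (h 0) (-h 1)) - e0 (h 0) (h 1)) +
    (rho (rhp (eP (-h 0) (-h 1))) - e0 (h 0) (h 1))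

/-- the disk -/
noncomputable def Ds : Set E4 := eD '' Metric.closedBall 0 1

/-- Module DISK1: smoothness, immersion and symmetry of `eD`. -/
def S_DISK1 : Prop :=
  ContDiff ℝ (⊤ : ℕ∞) eD ∧ (∀ h, Function.Injective (fderiv ℝ eD h)) ∧
  (∀ h : E2, eD !₂[-h 0, h 1] = rho (eD h)) ∧ (∀ h : E2, eD !₂[h 0, -h 1] = rhp (eD h)) ∧
  (∀ h : E2, 4 / 5 ≤ ‖h‖ ^ 2 → eD h = e0 (h 0) (h 1))

/-- Module DISK2: injectivity and size of `eD`. -/
def S_DISK2 : Prop :=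
  Function.Injective eD ∧ (∀ h : E2, ‖h‖ ^ 2 < 4 / 5 → ‖eD h‖ ^ 2 < 4 / 5)

/-- Module BEND: a homeomorphism carrying `Dtop M` to the smooth disk. -/
def S_BEND : Prop :=
  ∃ M, Good M ∧ ∃ G : E4 ≃ₜ E4, (∀ x, ‖G x‖ = ‖x‖) ∧ (∀ x, G (rho x) = rho (G x)) ∧
    (∀ x, G (rhp x) = rhp (G x)) ∧ (∀ x : E4, x 3 = 0 → G x = x) ∧
    (∀ x ∈ B4, G x ∈ Ds ↔ x ∈ Dtop M)

/-! ## Smooth disks and isotopies -/

/-- `K` is a smoothly embedded circle in `S³`, parametrised such that `rho` acts on it as the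
reflection `t ↦ -t`. -/
def IsSNAKnot (K : Set E4) : Prop :=
  ∃ γ : ℝ → E4, ContDiff ℝ (⊤ : ℕ∞) γ ∧ (∀ t, γ (t + 1) = γ t) ∧
    (∀ s t, γ s = γ t → ∃ n : ℤ, s - t = n) ∧ (∀ t, deriv γ t ≠ 0) ∧ (∀ t, γ t ∈ S3) ∧
    (∀ t, rho (γ t) = γ (-t)) ∧ K = Set.range γ

/-- `D` is a smoothly and properly embedded disk in `B⁴` with boundary `K`. -/
def IsSliceDisk (K D : Set E4) : Prop :=
  ∃ e : E2 → E4, ContDiff ℝ (⊤ : ℕ∞) e ∧ Set.InjOn e (Metric.closedBall 0 1) ∧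
    (∀ h ∈ Metric.closedBall (0 : E2) 1, Function.Injective (fderiv ℝ e h)) ∧
    e '' Metric.closedBall 0 1 = D ∧ e '' Metric.sphere 0 1 = K ∧
    (∀ h ∈ Metric.ball (0 : E2) 1, ‖e h‖ < 1) ∧
    (∀ h ∈ Metric.sphere (0 : E2) 1, ‖e h‖ = 1 ∧ 0 < inner ℝ (e h) (fderiv ℝ e h h))

/-- `D₁` and `D₂` are smoothly ambient isotopic in `B⁴` rel `S³`. -/
def SmoothIsotopic (D₁ D₂ : Set E4) : Prop :=
  ∃ H H' : ℝ → E4 → E4, ContDiff ℝ (⊤ : ℕ∞) (fun q : ℝ × E4 => H q.1 q.2) ∧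
    ContDiff ℝ (⊤ : ℕ∞) (fun q : ℝ × E4 => H' q.1 q.2) ∧
    (∀ t x, H' t (H t x) = x) ∧ (∀ t x, H t (H' t x) = x) ∧
    (∀ t, ∀ x ∈ B4, H t x ∈ B4) ∧ (∀ t, ∀ x ∈ B4, H' t x ∈ B4) ∧
    (∀ t, ∀ x ∈ S3, H t x = x) ∧ (∀ x, H 0 x = x) ∧ H 1 '' D₁ = D₂

/-- the boundary unknot -/
def K0 : Set E4 := {p | p ∈ S3 ∧ p 0 = 0 ∧ p 2 = 0}

/-- Module ISO: rotating the plane. -/
def S_ISO : Prop :=
  ∀ D : Set E4, D ⊆ B4 → (∀ x ∈ B4, 4 / 5 ≤ ‖x‖ ^ 2 → (x ∈ D ↔ x 0 = 0 ∧ x 2 = 0)) →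
    SmoothIsotopic D (Rq '' D)

/-- Module KNOT. -/
def S_KNOT : Prop := IsSNAKnot K0

/-- Module SLICE (from DISK1, DISK2): `Ds` and `Rq '' Ds` are slice disks. -/
def S_SLICE : Prop :=
  IsSliceDisk K0 Ds ∧ IsSliceDisk K0 (Rq '' Ds) ∧ rho '' Ds = Ds ∧ rhp '' Ds = Ds ∧
  rho '' (Rq '' Ds) = Rq '' Ds ∧
  (∀ x ∈ B4, 4 / 5 ≤ ‖x‖ ^ 2 → (x ∈ Ds ↔ x 0 = 0 ∧ x 2 = 0))

end EQD
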