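import Pool.Agent.H73.EQD.Basic
import Pool.Agent.H73.EQD.Stmts

/-!
# Module FIN: transfer of symmetric coverings and the final argument
-/

open Real Set Topology

namespace EQD

/-- transfer of symmetric coverings by an equivariant homeomorphism fixing `hpath` -/
lemma HasSymCover.transfer {D D' : Set E4} {τ τ' : E4 → E4} (h : HasSymCover D τ)
    (E : ↥(B4 \ D) ≃ₜ ↥(B4 \ D'))
    (hE : ∀ x y : ↥(B4 \ D), (y : E4) = τ x → (E y : E4) = τ' (E x))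
    (hp1 : ∀ (x : ↥(B4 \ D)) (t : unitInterval), (x : E4) = hpath t → (E x : E4) = hpath t)
    (hp2 : ∀ (x : ↥(B4 \ D)), (E x : E4) = hpath 0 → (x : E4) = hpath 0) :
    HasSymCover D' τ' := by
  obtain ⟨C, _, p, th, hh, hp, hth, hpth, hthth, hhc, hph, hfib, hinj, hthh, hJ⟩ := h
  refine ⟨C, _, E ∘ p, th, hh, hp.homeomorph_comp E, hth, fun c => hE _ _ (hpth c), hthth, hhc,
    fun i t => hp1 _ _ (hph i t), fun c hc => hfib c (hp2 _ hc), hinj, hthh, hJ⟩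

lemma hpath_3 (t : ℝ) : hpath t 3 = 0 := rfl
lemma hpath_1 (t : ℝ) : hpath t 1 = 0 := rfl

lemma hpath_mem_S3 (t : ℝ) : hpath t ∈ S3 := by
  rw [mem_S3]
  have e0 : hpath t 0 = cos (π * t) := rfl
  have e2 : hpath t 2 = sin (π * t) := rfl
  rw [e0, e2, hpath_1, hpath_3]
  have := sin_sq_add_cos_sq (π * t)
  linarith

/-- transfer along the homeomorphism of module BEND -/
lemma transfer_G {M : ℝ → ℝ} (G : E4 ≃ₜ E4) (hn : ∀ x, ‖G x‖ = ‖x‖)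
    (h3 : ∀ x : E4, x 3 = 0 → G x = x) (hD : ∀ x ∈ B4, G x ∈ Ds ↔ x ∈ Dtop M)
    {τ : E4 → E4} (hτ : ∀ x, G (τ x) = τ (G x)) :
    HasSymCover (Dtop M) τ ↔ HasSymCover Ds τ := by
  have hB : ∀ x, G x ∈ B4 ↔ x ∈ B4 := by
    intro x
    simp only [B4, Metric.mem_closedBall, dist_zero_right, hn]
  have hiff : ∀ x, x ∈ B4 \ Dtop M ↔ G x ∈ B4 \ Ds := by
    intro x
    constructor
    · rintro ⟨h1, h2⟩
      exact ⟨(hB x).2 h1, fun h => h2 ((hD x h1).1 h)⟩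
    · rintro ⟨h1, h2⟩
      have h1' := (hB x).1 h1
      exact ⟨h1', fun h => h2 ((hD x h1').2 h)⟩
  let E : ↥(B4 \ Dtop M) ≃ₜ ↥(B4 \ Ds) := G.subtype hiff
  have hE : ∀ x, (E x : E4) = G x := fun x => rfl
  have hE' : ∀ y, G (E.symm y : E4) = y := by
    intro y
    rw [← hE, E.apply_symm_apply]
  have hG : ∀ t : ℝ, G (hpath t) = hpath t := fun t => h3 _ (hpath_3 t)
  constructor
  · intro h
    refine h.transfer E ?_ ?_ ?_
    · intro x y hxy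
      rw [hE, hE, hxy, hτ]
    · intro x t hx
      rw [hE, hx, hG]
    · intro x hx
      rw [hE] at hx
      apply G.injective
      rw [hx, hG]
  · intro h
    refine h.transfer E.symm ?_ ?_ ?_
    · intro x y hxy
      apply G.injective
      rw [hE', hτ, hE', hxy]
    · intro x t hx
      apply G.injective
      rw [hE', hG, hx]
    · intro x hx
      rw [← hE' x, hx, hG]

/-- inverse of `Rq` -/
def Rqi (p : E4) : E4 := !₂[p 0, p 3, p 2, -p 1]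

@[simp] lemma Rqi_0 (p : E4) : Rqi p 0 = p 0 := rfl
@[simp] lemma Rqi_1 (p : E4) : Rqi p 1 = p 3 := rfl
@[simp] lemma Rqi_2 (p : E4) : Rqi p 2 = p 2 := rfl
@[simp] lemma Rqi_3 (p : E4) : Rqi p 3 = -p 1 := rfl

lemma Rq_Rqi (p : E4) : Rq (Rqi p) = p := by apply ext4 <;> simp
lemma Rqi_Rq (p : E4) : Rqi (Rq p) = p := by apply ext4 <;> simp
lemma Rqi_rho (p : E4) : Rqi (rho p) = rhp (Rqi p) := by apply ext4 <;> simp
lemma continuous_Rqi : Continuous Rqi := by unfold Rqi; fun_prop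
lemma Rq_mem_B4 {p : E4} : Rq p ∈ B4 ↔ p ∈ B4 := by
  simp only [mem_B4, Rq_0, Rq_1, Rq_2, Rq_3]
  constructor <;> intro h <;> nlinarith
lemma Rqi_mem_B4 {p : E4} : Rqi p ∈ B4 ↔ p ∈ B4 := by
  simp only [mem_B4, Rqi_0, Rqi_1, Rqi_2, Rqi_3]
  constructor <;> intro h <;> nlinarith

/-- the quarter turn of the ball -/
def RB : ↥B4 ≃ₜ ↥B4 where
  toFun x := ⟨Rq x, Rq_mem_B4.2 x.2⟩
  invFun x := ⟨Rqi x, Rqi_mem_B4.2 x.2⟩
  left_inv x := Subtype.ext (Rqi_Rq x)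
  right_inv x := Subtype.ext (Rq_Rqi x)
  continuous_toFun := by
    have := continuous_Rq
    fun_prop
  continuous_invFun := by
    have := continuous_Rqi
    fun_prop

/-- homeomorphism of complements from a homeomorphism of `B⁴` -/
lemma exists_compl {D D' : Set E4} (Φ : ↥B4 ≃ₜ ↥B4)
    (h : ∀ x : ↥B4, (x : E4) ∈ D ↔ (Φ x : E4) ∈ D') :
    ∃ E : ↥(B4 \ D) ≃ₜ ↥(B4 \ D'), ∀ x : ↥(B4 \ D), (E x : E4) = Φ ⟨x, x.2.1⟩ := by
  have h' : ∀ x : ↥B4, (x : E4) ∈ D' ↔ (Φ.symm x : E4) ∈ D := by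
    intro x
    rw [h, Φ.apply_symm_apply]
  refine ⟨⟨⟨fun x => ⟨Φ ⟨x, x.2.1⟩, (Φ ⟨x, x.2.1⟩).2, fun hx => x.2.2 ((h ⟨x, x.2.1⟩).2 hx)⟩,
    fun x => ⟨Φ.symm ⟨x, x.2.1⟩, (Φ.symm ⟨x, x.2.1⟩).2, fun hx => x.2.2 ((h' ⟨x, x.2.1⟩).2 hx)⟩,
    ?_, ?_⟩, ?_, ?_⟩, ?_⟩
  · intro x
    apply Subtype.ext
    simp
  · intro x
    apply Subtype.ext
    simp
  · fun_prop
  · fun_prop
  · intro x; rfl

/-- The main argument: no homeomorphism of `B⁴` rel `S³` commuting with `rho` carries `Ds` to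
`Rq '' Ds`. -/
theorem no_equiv_homeo (hNEX : S_NEX) (hEXI : S_EXI) (hBEND : S_BEND) (Φ : ↥B4 ≃ₜ ↥B4)
    (hS : ∀ x : ↥B4, (x : E4) ∈ S3 → Φ x = x)
    (hρ : ∀ x y : ↥B4, (y : E4) = rho x → (Φ y : E4) = rho (Φ x))
    (hD : ∀ x : ↥B4, (x : E4) ∈ Ds ↔ (Φ x : E4) ∈ Rq '' Ds) : False := by
  obtain ⟨M, hM, G, hn, hGρ, hGρ', h3, hGD⟩ := hBEND
  have h1 : HasSymCover Ds rhp := (transfer_G G hn h3 hGD hGρ').1 (hEXI M hM)
  apply hNEX M hM
  rw [transfer_G G hn h3 hGD hGρ]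
  -- the homeomorphism `Ψ = Rq⁻¹ Φ`
  let Ψ : ↥B4 ≃ₜ ↥B4 := Φ.trans RB.symm
  have hΨ : ∀ x, (Ψ x : E4) = Rqi (Φ x) := fun x => rfl
  have hΨD : ∀ x : ↥B4, (x : E4) ∈ Ds ↔ (Ψ x : E4) ∈ Ds := by
    intro x
    rw [hD x, hΨ]
    constructor
    · rintro ⟨y, hy, he⟩
      rw [← he, Rqi_Rq]; exact hy
    · intro h
      exact ⟨_, h, Rq_Rqi _⟩
  obtain ⟨E, hE⟩ := exists_compl Ψ hΨD
  have hEh : ∀ (x : ↥(B4 \ Ds)) (t : ℝ), (x : E4) = hpath t → (E x : E4) = hpath t := by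
    intro x t hx
    rw [hE, hΨ, hS ⟨x, x.2.1⟩ (by rw [hx]; exact hpath_mem_S3 t)]
    change Rqi (x : E4) = _
    rw [hx]
    apply ext4
    · rfl
    · rw [Rqi_1, hpath_3, hpath_1]
    · rfl
    · rw [Rqi_3, hpath_3, hpath_1, neg_zero]
  have hEτ : ∀ x y : ↥(B4 \ Ds), (y : E4) = rho x → (E y : E4) = rhp (E x) := by
    intro x y hxy
    rw [hE, hE, hΨ, hΨ, hρ ⟨x, x.2.1⟩ ⟨y, y.2.1⟩ hxy, Rqi_rho]
  have hinj : ∀ (x : ↥(B4 \ Ds)) (t : ℝ), (E x : E4) = hpath t → (x : E4) = hpath t := by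
    intro x t hx
    -- `hpath t` lies outside `Ds` because its preimage does
    have hmem : hpath t ∈ B4 \ Ds := by rw [← hx]; exact (E x).2
    have h2 := hEh ⟨hpath t, hmem⟩ t rfl
    have h4 : E ⟨hpath t, hmem⟩ = E x := Subtype.ext (h2.trans hx.symm)
    have h5 := E.injective h4
    exact (congrArg (fun z : ↥(B4 \ Ds) => (z : E4)) h5).symm
  refine h1.transfer E.symm ?_ ?_ ?_
  · intro x y hxy
    -- apply `E`
    have hx := x.2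
    have hmem : rho (E.symm x : E4) ∈ B4 \ Ds := by
      have e1 := (E.symm x).2
      refine ⟨rho_mem_B4.2 e1.1, fun hc => ?_⟩
      have e2 : ∀ z : ↥B4, (z : E4) ∈ Ds ↔ (Ψ z : E4) ∈ Ds := hΨD
      have e3 := (e2 ⟨rho (E.symm x : E4), rho_mem_B4.2 e1.1⟩).1 hc
      rw [hΨ, hρ ⟨(E.symm x : E4), e1.1⟩ ⟨rho (E.symm x : E4), rho_mem_B4.2 e1.1⟩ rfl,
        Rqi_rho, ← hΨ, ← hE (E.symm x), E.apply_symm_apply, ← hxy] at e3
      exact y.2.2 e3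
    have h2 := hEτ (E.symm x) ⟨rho (E.symm x : E4), hmem⟩ rfl
    rw [E.apply_symm_apply, ← hxy] at h2
    have h3 : E ⟨rho (E.symm x : E4), hmem⟩ = y := Subtype.ext h2
    rw [← h3, E.symm_apply_apply]
  · intro x t hx
    apply hinj
    rw [E.apply_symm_apply]; exact hx
  · intro x hx
    have := hEh (E.symm x) 0 hx
    rwa [E.apply_symm_apply] at this

end EQD
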