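import Pool.Agent.H73.EQD.NEX
import Pool.Agent.H73.EQD.FIN
import Pool.Agent.H68.EQD.TC
import Pool.Agent.H68.EQD.BIND
import Pool.Agent.H32.EQD.CLO
import Pool.Agent.H32.EQD.LC
import Pool.Agent.H53.EQD.CONN
import Pool.Agent.H26.EQD.DISK2
import Pool.Agent.H65.EQD.BEND
import Pool.Agent.H56.EQD.ISO
import Pool.Agent.H56.EQD.KNOT
import Pool.Agent.H90.EQD.SLICE

/-!
# Assembly of project EQD
-/

open Real Set Topology

namespace EQD

theorem nex_final : S_NEX := nex tc clo refpts (conn clo lc)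

end EQD
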