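import Pool.Agent.H73.EQD.Defs

/-!
# Basic lemmas for project EQD: symmetries and wedges
-/

open Real Set Topology

namespace EQD

/-! ### coordinates of the involutions -/

@[simp] lemma rho_0 (p : E4) : rho p 0 = -p 0 := rfl
@[simp] lemma rho_1 (p : E4) : rho p 1 = -p 1 := rfl
@[simp] lemma rho_2 (p : E4) : rho p 2 = -p 2 := rfl
@[simp] lemma rho_3 (p : E4) : rho p 3 = p 3 := rfl
@[simp] lemma rhp_0 (p : E4) : rhp p 0 = -p 0 := rfl
@[simp] lemma rhp_1 (p : E4) : rhp p 1 = p 1 := rfl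
@[simp] lemma rhp_2 (p : E4) : rhp p 2 = -p 2 := rfl
@[simp] lemma rhp_3 (p : E4) : rhp p 3 = -p 3 := rfl
@[simp] lemma Rq_0 (p : E4) : Rq p 0 = p 0 := rfl
@[simp] lemma Rq_1 (p : E4) : Rq p 1 = -p 3 := rfl
@[simp] lemma Rq_2 (p : E4) : Rq p 2 = p 2 := rfl
@[simp] lemma Rq_3 (p : E4) : Rq p 3 = p 1 := rfl

lemma ext4 {p q : E4} (h0 : p 0 = q 0) (h1 : p 1 = q 1) (h2 : p 2 = q 2) (h3 : p 3 = q 3) :
    p = q := by
  ext i
  fin_cases i
  · exact h0
  · exact h1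
  · exact h2
  · exact h3

@[simp] lemma rho_rho (p : E4) : rho (rho p) = p := by apply ext4 <;> simp
@[simp] lemma rhp_rhp (p : E4) : rhp (rhp p) = p := by apply ext4 <;> simp
lemma rho_rhp (p : E4) : rho (rhp p) = rhp (rho p) := by apply ext4 <;> simp
lemma rho_Rq (p : E4) : rho (Rq p) = Rq (rhp p) := by apply ext4 <;> simp

lemma nsq (p : E4) : ‖p‖ ^ 2 = p 0 ^ 2 + p 1 ^ 2 + p 2 ^ 2 + p 3 ^ 2 := by
  rw [EuclideanSpace.norm_sq_eq]
  simp [Fin.sum_univ_four, sq_abs]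

lemma mem_B4 {p : E4} : p ∈ B4 ↔ p 0 ^ 2 + p 1 ^ 2 + p 2 ^ 2 + p 3 ^ 2 ≤ 1 := by
  rw [← nsq, B4, Metric.mem_closedBall, dist_zero_right]
  constructor
  · intro h; nlinarith [norm_nonneg p]
  · intro h; nlinarith [norm_nonneg p]

lemma mem_S3 {p : E4} : p ∈ S3 ↔ p 0 ^ 2 + p 1 ^ 2 + p 2 ^ 2 + p 3 ^ 2 = 1 := by
  rw [← nsq, S3, mem_sphere_iff_norm, sub_zero]
  constructor
  · intro h; rw [h]; norm_num
  · intro h
    have := norm_nonneg p
    nlinarith [norm_nonneg p]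

lemma norm_rho (p : E4) : ‖rho p‖ = ‖p‖ := by
  have h : ‖rho p‖ ^ 2 = ‖p‖ ^ 2 := by rw [nsq, nsq]; simp
  exact (sq_eq_sq₀ (norm_nonneg _) (norm_nonneg _)).1 h

lemma norm_rhp (p : E4) : ‖rhp p‖ = ‖p‖ := by
  have h : ‖rhp p‖ ^ 2 = ‖p‖ ^ 2 := by rw [nsq, nsq]; simp
  exact (sq_eq_sq₀ (norm_nonneg _) (norm_nonneg _)).1 h

lemma norm_Rq (p : E4) : ‖Rq p‖ = ‖p‖ := by
  have h : ‖Rq p‖ ^ 2 = ‖p‖ ^ 2 := by rw [nsq, nsq]; simp; ring
  exact (sq_eq_sq₀ (norm_nonneg _) (norm_nonneg _)).1 h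

lemma rho_mem_B4 {p : E4} : rho p ∈ B4 ↔ p ∈ B4 := by simp [mem_B4]
lemma rhp_mem_B4 {p : E4} : rhp p ∈ B4 ↔ p ∈ B4 := by simp [mem_B4]

lemma convex_B4 : Convex ℝ B4 := convex_closedBall 0 1

lemma lineMap_apply' (x y : E4) (t : ℝ) (i : Fin 4) :
    (AffineMap.lineMap x y t : E4) i = x i + t * (y i - x i) := by
  simp [AffineMap.lineMap_apply]; ring

lemma rho_lineMap (x y : E4) (t : ℝ) :
    rho (AffineMap.lineMap x y t) = AffineMap.lineMap (rho x) (rho y) t := by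
  apply ext4 <;> simp only [lineMap_apply', rho_0, rho_1, rho_2, rho_3] <;> ring

lemma rhp_lineMap (x y : E4) (t : ℝ) :
    rhp (AffineMap.lineMap x y t) = AffineMap.lineMap (rhp x) (rhp y) t := by
  apply ext4 <;> simp only [lineMap_apply', rhp_0, rhp_1, rhp_2, rhp_3] <;> ring

lemma continuous_rho : Continuous rho := by unfold rho; fun_prop
lemma continuous_rhp : Continuous rhp := by unfold rhp; fun_prop
lemma continuous_Rq : Continuous Rq := by unfold Rq; fun_prop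

/-! ### radius, latitude, `mp`, `mm` -/

lemma rad_nonneg (p : E4) : 0 ≤ rad p := sqrt_nonneg _
lemma rad_sq (p : E4) : rad p ^ 2 = p 0 ^ 2 + p 1 ^ 2 + p 2 ^ 2 := by
  rw [rad, sq_sqrt]; positivity

@[simp] lemma rad_rho (p : E4) : rad (rho p) = rad p := by simp [rad]
@[simp] lemma rad_rhp (p : E4) : rad (rhp p) = rad p := by simp [rad]
@[simp] lemma lat_rho (p : E4) : lat (rho p) = -lat p := by
  simp [lat, neg_div, arcsin_neg]
@[simp] lemma lat_rhp (p : E4) : lat (rhp p) = -lat p := by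
  simp [lat, neg_div, arcsin_neg]
@[simp] lemma mp_rho (p : E4) : mp (rho p) = mp p := by simp [mp]
@[simp] lemma mm_rho (p : E4) : mm (rho p) = mm p := by simp [mm]
@[simp] lemma mp_rhp (p : E4) : mp (rhp p) = mm p := by
  simp only [mp, mm, rad_rhp, rhp_3]; congr 2; ring
@[simp] lemma mm_rhp (p : E4) : mm (rhp p) = mp p := by
  simp only [mp, mm, rad_rhp, rhp_3]; congr 2; ring

lemma mp_nonneg (p : E4) : 0 ≤ mp p := sqrt_nonneg _
lemma mm_nonneg (p : E4) : 0 ≤ mm p := sqrt_nonneg _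

/-- the two centres have distance one -/
lemma mp_add_mm (p : E4) : 1 ≤ mp p + mm p := by
  have h1 : |p 3 - 1 / 2| ≤ mp p := by
    rw [mp]; apply abs_le_sqrt; nlinarith [sq_nonneg (rad p - 1 / 4)]
  have h2 : |p 3 + 1 / 2| ≤ mm p := by
    rw [mm]; apply abs_le_sqrt; nlinarith [sq_nonneg (rad p - 1 / 4)]
  have h3 := neg_abs_le (p 3 - 1 / 2)
  have h4 := le_abs_self (p 3 + 1 / 2)
  linarith

lemma continuous_rad : Continuous rad := by unfold rad; fun_prop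
lemma continuous_mp : Continuous mp := by unfold mp; have := continuous_rad; fun_prop
lemma continuous_mm : Continuous mm := by unfold mm; have := continuous_rad; fun_prop

lemma lat_continuousAt {p : E4} (h : rad p ≠ 0) : ContinuousAt lat p := by
  unfold lat
  have h1 : ContinuousAt (fun p : E4 => p 0 / rad p) p :=
    ContinuousAt.div (by fun_prop) continuous_rad.continuousAt h
  exact continuous_arcsin.continuousAt.comp h1

/-! ### `ell`, `dt` -/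

lemma ell0 (p : E4) : ell 0 p = p 2 := by simp [ell, uy, uz]
lemma ell1 (p : E4) : ell 1 p = p 2 - p 1 := by simp [ell, uy, uz]
lemma ell2 (p : E4) : ell 2 p = -p 2 - p 1 := by simp [ell, uy, uz]
lemma ell3 (p : E4) : ell 3 p = -p 2 := by simp [ell, uy, uz]
lemma ell4 (p : E4) : ell 4 p = -p 2 + p 1 := by simp [ell, uy, uz]
lemma ell5 (p : E4) : ell 5 p = p 2 + p 1 := by simp [ell, uy, uz]
lemma dt0 (p : E4) : dt 0 p = p 1 := by simp [dt, uy, uz]
lemma dt1 (p : E4) : dt 1 p = p 1 + p 2 := by simp [dt, uy, uz]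
lemma dt2 (p : E4) : dt 2 p = -p 1 + p 2 := by simp [dt, uy, uz]
lemma dt3 (p : E4) : dt 3 p = -p 1 := by simp [dt, uy, uz]
lemma dt4 (p : E4) : dt 4 p = -p 1 - p 2 := by simp [dt, uy, uz]; ring
lemma dt5 (p : E4) : dt 5 p = p 1 - p 2 := by simp [dt, uy, uz]; ring

lemma fin6_cases (j : Fin 6) : j = 0 ∨ j = 1 ∨ j = 2 ∨ j = 3 ∨ j = 4 ∨ j = 5 := by
  fin_cases j <;> decide

lemma add1_0 : (0 : Fin 6) + 1 = 1 := rfl
lemma add1_1 : (1 : Fin 6) + 1 = 2 := rfl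
lemma add1_2 : (2 : Fin 6) + 1 = 3 := rfl
lemma add1_3 : (3 : Fin 6) + 1 = 4 := rfl
lemma add1_4 : (4 : Fin 6) + 1 = 5 := rfl
lemma add1_5 : (5 : Fin 6) + 1 = 0 := rfl
lemma add3_0 : (0 : Fin 6) + 3 = 3 := rfl
lemma add3_1 : (1 : Fin 6) + 3 = 4 := rfl
lemma add3_2 : (2 : Fin 6) + 3 = 5 := rfl
lemma add3_3 : (3 : Fin 6) + 3 = 0 := rfl
lemma add3_4 : (4 : Fin 6) + 3 = 1 := rfl
lemma add3_5 : (5 : Fin 6) + 3 = 2 := rfl
lemma neg_0' : -(0 : Fin 6) = 0 := rfl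
lemma neg_1' : -(1 : Fin 6) = 5 := rfl
lemma neg_2' : -(2 : Fin 6) = 4 := rfl
lemma neg_3' : -(3 : Fin 6) = 3 := rfl
lemma neg_4' : -(4 : Fin 6) = 2 := rfl
lemma neg_5' : -(5 : Fin 6) = 1 := rfl

lemma ell_rho (j : Fin 6) (p : E4) : ell (j + 3) (rho p) = ell j p := by
  rcases fin6_cases j with rfl | rfl | rfl | rfl | rfl | rfl <;>
  simp only [add3_0, add3_1, add3_2, add3_3, add3_4, add3_5, ell0, ell1, ell2, ell3, ell4, ell5,
    rho_1, rho_2] <;> ring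

lemma dt_rho (j : Fin 6) (p : E4) : dt (j + 3) (rho p) = dt j p := by
  rcases fin6_cases j with rfl | rfl | rfl | rfl | rfl | rfl <;>
  simp only [add3_0, add3_1, add3_2, add3_3, add3_4, add3_5, dt0, dt1, dt2, dt3, dt4, dt5,
    rho_1, rho_2] <;> ring

lemma ell_rhp (j : Fin 6) (p : E4) : ell (-j) (rhp p) = -ell j p := by
  rcases fin6_cases j with rfl | rfl | rfl | rfl | rfl | rfl <;>
  simp only [neg_0', neg_1', neg_2', neg_3', neg_4', neg_5', ell0, ell1, ell2, ell3, ell4, ell5,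
    rhp_1, rhp_2] <;> ring

lemma dt_rhp (j : Fin 6) (p : E4) : dt (-j) (rhp p) = dt j p := by
  rcases fin6_cases j with rfl | rfl | rfl | rfl | rfl | rfl <;>
  simp only [neg_0', neg_1', neg_2', neg_3', neg_4', neg_5', dt0, dt1, dt2, dt3, dt4, dt5,
    rhp_1, rhp_2] <;> ring

lemma Pg_rho {j : Fin 6} {p : E4} : rho p ∈ Pg (j + 3) ↔ p ∈ Pg j := by
  simp only [Pg, mem_setOf_eq, ell_rho, dt_rho]

lemma Pg_rhp {j : Fin 6} {p : E4} : rhp p ∈ Pg (-j) ↔ p ∈ Pg j := by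
  simp only [Pg, mem_setOf_eq, ell_rhp, dt_rhp, neg_eq_zero]

lemma ClW_rho {j : Fin 6} {p : E4} : rho p ∈ ClW (j + 3) ↔ p ∈ ClW j := by
  have h : j + 3 + 1 = j + 1 + 3 := by revert j; decide
  simp only [ClW, mem_setOf_eq, h, ell_rho]

lemma Wd_rho {j : Fin 6} {p : E4} : rho p ∈ Wd (j + 3) ↔ p ∈ Wd j := by
  have h : j + 3 + 1 = j + 1 + 3 := by revert j; decide
  simp only [Wd, mem_setOf_eq, h, ell_rho]

lemma ClW_rhp {j : Fin 6} {p : E4} : rhp p ∈ ClW (-j - 1) ↔ p ∈ ClW j := by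
  have h1 : -j - 1 = -(j + 1) := by revert j; decide
  have h2 : -(j + 1) + 1 = -j := by revert j; decide
  simp only [ClW, mem_setOf_eq, h1, h2, ell_rhp]
  constructor
  · rintro ⟨h, h'⟩; exact ⟨by linarith, by linarith⟩
  · rintro ⟨h, h'⟩; exact ⟨by linarith, by linarith⟩

lemma Wd_rhp {j : Fin 6} {p : E4} : rhp p ∈ Wd (-j - 1) ↔ p ∈ Wd j := by
  have h1 : -j - 1 = -(j + 1) := by revert j; decide
  have h2 : -(j + 1) + 1 = -j := by revert j; decide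
  simp only [Wd, mem_setOf_eq, h1, h2, ell_rhp]
  constructor
  · rintro ⟨h, h'⟩; exact ⟨by linarith, by linarith⟩
  · rintro ⟨h, h'⟩; exact ⟨by linarith, by linarith⟩

/-! ### conditions and labels -/

lemma la_rho (j : Fin 6) (p : E4) : la (j + 3) (rho p) = la j p := by
  rcases fin6_cases j with rfl | rfl | rfl | rfl | rfl | rfl <;>
  simp [la, add3_0, add3_1, add3_2, add3_3, add3_4, add3_5]

lemma m1_rho (j : Fin 6) (p : E4) : m1 (j + 3) (rho p) = m1 j p := by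
  rcases fin6_cases j with rfl | rfl | rfl | rfl | rfl | rfl <;>
  simp [m1, add3_0, add3_1, add3_2, add3_3, add3_4, add3_5]

lemma m2_rho (j : Fin 6) (p : E4) : m2 (j + 3) (rho p) = m2 j p := by
  rcases fin6_cases j with rfl | rfl | rfl | rfl | rfl | rfl <;>
  simp [m2, add3_0, add3_1, add3_2, add3_3, add3_4, add3_5]

lemma isA_rho (j : Fin 6) : (j + 3 = 0 ∨ j + 3 = 3) ↔ (j = 0 ∨ j = 3) := by
  revert j; decide

lemma isA_neg (j : Fin 6) : (-j = 0 ∨ -j = 3) ↔ (j = 0 ∨ j = 3) := by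
  revert j; decide

lemma Cond_rho {M : ℝ → ℝ} {j : Fin 6} {p : E4} : Cond M (j + 3) (rho p) ↔ Cond M j p := by
  simp only [Cond, la_rho, m1_rho, m2_rho, isA_rho]

lemma lab_rho (M : ℝ → ℝ) (j : Fin 6) (p : E4) : lab M (j + 3) (rho p) = lab M j p := by
  simp only [lab, la_rho, m1_rho, m2_rho, isA_rho]

lemma Dtop_rho {M : ℝ → ℝ} {p : E4} : rho p ∈ Dtop M ↔ p ∈ Dtop M := by
  simp only [Dtop, mem_union, mem_setOf_eq, rad_rho]
  constructor
  · rintro (h | ⟨j, hj, hc⟩)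
    · exact Or.inl h
    · refine Or.inr ⟨j + 3, ?_, ?_⟩
      · have := (Pg_rho (j := j) (p := rho p)).2 hj
        rwa [rho_rho] at this
      · have := (Cond_rho (M := M) (j := j) (p := rho p)).2 hc
        rwa [rho_rho] at this
  · rintro (h | ⟨j, hj, hc⟩)
    · exact Or.inl h
    · exact Or.inr ⟨j + 3, Pg_rho.2 hj, Cond_rho.2 hc⟩

lemma CondA_swap {M : ℝ → ℝ} {α m m' : ℝ} : CondA M (-α) m' m ↔ CondA M α m m' := by
  unfold CondA
  constructor
  · rintro (⟨h1, h2, h3⟩ | ⟨h1, h2⟩ | ⟨h1, h2⟩)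
    · exact Or.inl ⟨by linarith, h3, h2⟩
    · exact Or.inr (Or.inr ⟨by linarith, by rwa [neg_neg] at h2⟩)
    · exact Or.inr (Or.inl ⟨by linarith, h2⟩)
  · rintro (⟨h1, h2, h3⟩ | ⟨h1, h2⟩ | ⟨h1, h2⟩)
    · exact Or.inl ⟨by linarith, h3, h2⟩
    · exact Or.inr (Or.inr ⟨by linarith, h2⟩)
    · exact Or.inr (Or.inl ⟨by linarith, by rwa [neg_neg]⟩)

/-- on the pages `0, 3` the involution `rhp` changes `la` by a sign and swaps the radii -/
lemma la_rhp_A {j : Fin 6} (hj : j = 0 ∨ j = 3) (p : E4) :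
    la (-j) (rhp p) = -la j p ∧ m1 (-j) (rhp p) = m2 j p ∧ m2 (-j) (rhp p) = m1 j p := by
  rcases hj with rfl | rfl <;> simp [la, m1, m2, neg_0', neg_3']

/-- on the other pages `rhp` preserves `la` and the radii -/
lemma la_rhp_B {j : Fin 6} (hj : ¬ (j = 0 ∨ j = 3)) (p : E4) :
    la (-j) (rhp p) = la j p ∧ m1 (-j) (rhp p) = m1 j p ∧ m2 (-j) (rhp p) = m2 j p := by
  rcases fin6_cases j with rfl | rfl | rfl | rfl | rfl | rfl
  · simp at hj
  · simp [la, m1, m2, neg_1']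
  · simp [la, m1, m2, neg_2']
  · simp at hj
  · simp [la, m1, m2, neg_4']
  · simp [la, m1, m2, neg_5']

lemma Cond_rhp {M : ℝ → ℝ} {j : Fin 6} {p : E4} : Cond M (-j) (rhp p) ↔ Cond M j p := by
  by_cases hj : j = 0 ∨ j = 3
  · obtain ⟨h1, h2, h3⟩ := la_rhp_A hj p
    simp only [Cond, isA_neg, hj, if_true, h1, h2, h3, CondA_swap]
  · obtain ⟨h1, h2, h3⟩ := la_rhp_B hj p
    simp only [Cond, isA_neg, hj, if_false, h1, h2, h3]

lemma Dtop_rhp {M : ℝ → ℝ} {p : E4} : rhp p ∈ Dtop M ↔ p ∈ Dtop M := by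
  simp only [Dtop, mem_union, mem_setOf_eq, rad_rhp]
  constructor
  · rintro (h | ⟨j, hj, hc⟩)
    · exact Or.inl h
    · refine Or.inr ⟨-j, ?_, ?_⟩
      · have := (Pg_rhp (j := j) (p := rhp p)).2 hj
        rwa [rhp_rhp] at this
      · have := (Cond_rhp (M := M) (j := j) (p := rhp p)).2 hc
        rwa [rhp_rhp] at this
  · rintro (h | ⟨j, hj, hc⟩)
    · exact Or.inl h
    · exact Or.inr ⟨-j, Pg_rhp.2 hj, Cond_rhp.2 hc⟩

lemma lab_rhp_B (M : ℝ → ℝ) {j : Fin 6} (hj : ¬ (j = 0 ∨ j = 3)) (p : E4) :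
    lab M (-j) (rhp p) = lab M j p := by
  obtain ⟨h1, h2, h3⟩ := la_rhp_B hj p
  simp only [lab, isA_neg, hj, if_false, h1, h2, h3]

lemma labA_swap {M : ℝ → ℝ} (hM : Good M) {α m m' : ℝ} (hm : 1 ≤ m + m')
    (hc : ¬ CondA M α m m') : labA M (-α) m' m = 1 - labA M α m m' := by
  have l0 := hM.lt 0
  unfold CondA at hc
  push Not at hc
  obtain ⟨c1, c2, c3⟩ := hc
  have key : ((0 < -α ∧ M (-α) < m) ∨ (-α ≤ 0 ∧ m' < M (- -α))) ↔
      ¬ ((0 < α ∧ M α < m') ∨ (α ≤ 0 ∧ m < M (-α))) := by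
    rw [neg_neg]
    rcases lt_trichotomy α 0 with h | h | h
    · have h2 := c2 h
      constructor
      · rintro (⟨_, a⟩ | ⟨a, _⟩) (⟨b, _⟩ | ⟨_, b⟩)
        · linarith
        · linarith
        · linarith
        · linarith
      · intro h5
        refine Or.inl ⟨by linarith, lt_of_le_of_ne (not_lt.1 fun h6 => h5 (Or.inr ⟨h.le, h6⟩))
          (Ne.symm h2)⟩
    · subst h
      rw [neg_zero]
      constructor
      · rintro (⟨a, _⟩ | ⟨_, a⟩) (⟨b, _⟩ | ⟨_, b⟩)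
        · exact absurd a (lt_irrefl _)
        · exact absurd a (lt_irrefl _)
        · exact absurd b (lt_irrefl _)
        · linarith
      · intro h5
        exact Or.inr ⟨le_refl _, c1 rfl (not_lt.1 fun h6 => h5 (Or.inr ⟨le_refl _, h6⟩))⟩
    · have h2 := c3 h
      constructor
      · rintro (⟨a, _⟩ | ⟨_, a⟩) (⟨_, b⟩ | ⟨b, _⟩)
        · linarith
        · linarith
        · linarith
        · linarith
      · intro h5
        refine Or.inr ⟨by linarith, lt_of_le_of_ne (not_lt.1 fun h6 => h5 (Or.inl ⟨h, h6⟩)) h2⟩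
  unfold labA
  by_cases h : ((0 < α ∧ M α < m') ∨ (α ≤ 0 ∧ m < M (-α)))
  · rw [if_pos h, if_neg (fun h' => key.1 h' h)]
    rfl
  · rw [if_neg h, if_pos (key.2 h)]
    rfl

lemma one_le_m1_add_m2 (j : Fin 6) (p : E4) : 1 ≤ m1 j p + m2 j p := by
  have := mp_add_mm p
  unfold m1 m2
  split_ifs <;> linarith

lemma lab_rhp_A {M : ℝ → ℝ} (hM : Good M) {j : Fin 6} (hj : j = 0 ∨ j = 3) {p : E4}
    (hc : ¬ Cond M j p) : lab M (-j) (rhp p) = 1 - lab M j p := by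
  obtain ⟨h1, h2, h3⟩ := la_rhp_A hj p
  simp only [Cond, hj, if_true] at hc
  simp only [lab, isA_neg, hj, if_true, h1, h2, h3]
  exact labA_swap hM (one_le_m1_add_m2 j p) hc

/-! ### wedges -/

lemma wedge_cover (p : E4) : ∃ j, p ∈ ClW j := by
  have e : ∀ j, p ∈ ClW j ↔ 0 ≤ ell j p ∧ ell (j + 1) p ≤ 0 := fun j => Iff.rfl
  rcases le_total 0 (p 2) with h2 | h2
  · rcases le_total (p 2) (p 1) with h | h
    · exact ⟨0, by rw [e, add1_0, ell0, ell1]; constructor <;> linarith⟩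
    · rcases le_total (-p 2) (p 1) with h' | h'
      · exact ⟨1, by rw [e, add1_1, ell1, ell2]; constructor <;> linarith⟩
      · exact ⟨2, by rw [e, add1_2, ell2, ell3]; constructor <;> linarith⟩
  · rcases le_total (p 1) (p 2) with h | h
    · exact ⟨3, by rw [e, add1_3, ell3, ell4]; constructor <;> linarith⟩
    · rcases le_total (p 1) (-p 2) with h' | h'
      · exact ⟨4, by rw [e, add1_4, ell4, ell5]; constructor <;> linarith⟩
      · exact ⟨5, by rw [e, add1_5, ell5, ell0]; constructor <;> linarith⟩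

lemma Pg_iff {j : Fin 6} {p : E4} : p ∈ Pg (j + 1) ↔ p ∈ ClW j ∧ p ∈ ClW (j + 1) := by
  simp only [Pg, ClW, mem_setOf_eq]
  rcases fin6_cases j with rfl | rfl | rfl | rfl | rfl | rfl <;>
  simp only [add1_0, add1_1, add1_2, add1_3, add1_4, add1_5, ell0, ell1, ell2, ell3, ell4, ell5,
    dt0, dt1, dt2, dt3, dt4, dt5] <;>
  constructor <;> intro h <;> refine ⟨?_, ?_⟩ <;> (try refine ⟨?_, ?_⟩) <;> linarith [h.1, h.2]

lemma two_wedges {i j : Fin 6} {p : E4} (hi : p ∈ ClW i) (hj : p ∈ ClW j) :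
    i = j ∨ i = j + 1 ∨ j = i + 1 ∨ (p 1 = 0 ∧ p 2 = 0) := by
  simp only [ClW, mem_setOf_eq] at hi hj
  rcases fin6_cases i with rfl | rfl | rfl | rfl | rfl | rfl <;>
  rcases fin6_cases j with rfl | rfl | rfl | rfl | rfl | rfl <;>
  first
  | (left; rfl)
  | (right; left; rfl)
  | (right; right; left; rfl)
  | (right; right; right
     simp only [add1_0, add1_1, add1_2, add1_3, add1_4, add1_5, ell0, ell1, ell2, ell3, ell4,
       ell5] at hi hj
     constructor <;> linarith [hi.1, hi.2, hj.1, hj.2])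

lemma ell_binding {p : E4} (h1 : p 1 = 0) (h2 : p 2 = 0) (j : Fin 6) : ell j p = 0 ∧ dt j p = 0 := by
  simp [ell, dt, h1, h2]

lemma binding_ClW {p : E4} (h1 : p 1 = 0) (h2 : p 2 = 0) (j : Fin 6) : p ∈ ClW j := by
  refine ⟨?_, ?_⟩
  · rw [(ell_binding h1 h2 j).1]
  · rw [(ell_binding h1 h2 (j + 1)).1]

lemma binding_Pg {p : E4} (h1 : p 1 = 0) (h2 : p 2 = 0) (j : Fin 6) : p ∈ Pg j := by
  refine ⟨(ell_binding h1 h2 j).1, ?_⟩
  rw [(ell_binding h1 h2 j).2]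

lemma ell_lineMap (j : Fin 6) (x y : E4) (t : ℝ) :
    ell j (AffineMap.lineMap x y t) = ell j x + t * (ell j y - ell j x) := by
  simp only [ell, lineMap_apply']; ring

lemma dt_lineMap (j : Fin 6) (x y : E4) (t : ℝ) :
    dt j (AffineMap.lineMap x y t) = dt j x + t * (dt j y - dt j x) := by
  simp only [dt, lineMap_apply']; ring

lemma lineMap_mem_Wd {j : Fin 6} {x y : E4} (hx : x ∈ ClW j) (hy : y ∈ Wd j) {t : ℝ}
    (h0 : 0 < t) (h1 : t ≤ 1) : (AffineMap.lineMap x y t : E4) ∈ Wd j := by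
  simp only [Wd, ClW, mem_setOf_eq, ell_lineMap] at *
  constructor
  · nlinarith [hx.1, mul_pos h0 hy.1, mul_nonneg (sub_nonneg.2 h1) hx.1]
  · nlinarith [hx.2, mul_neg_of_pos_of_neg h0 hy.2, mul_nonneg (sub_nonneg.2 h1) (neg_nonneg.2 hx.2)]

lemma Wd_subset_ClW (j : Fin 6) : Wd j ⊆ ClW j := fun _ h => ⟨h.1.le, h.2.le⟩

lemma continuous_ell (j : Fin 6) : Continuous (ell j) := by unfold ell; fun_prop
lemma continuous_dt (j : Fin 6) : Continuous (dt j) := by unfold dt; fun_prop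

lemma isClosed_ClW (j : Fin 6) : IsClosed (ClW j) :=
  (isClosed_le continuous_const (continuous_ell j)).inter
    (isClosed_le (continuous_ell (j + 1)) continuous_const)

lemma isClosed_Pg (j : Fin 6) : IsClosed (Pg j) :=
  (isClosed_eq (continuous_ell j) continuous_const).inter
    (isClosed_le continuous_const (continuous_dt j))

lemma isOpen_Wd (j : Fin 6) : IsOpen (Wd j) :=
  (isOpen_lt continuous_const (continuous_ell j)).inter
    (isOpen_lt (continuous_ell (j + 1)) continuous_const)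

lemma uy_0 : uy 0 = 1 := rfl
lemma uy_1 : uy 1 = 1 := rfl
lemma uy_2 : uy 2 = -1 := rfl
lemma uy_3 : uy 3 = -1 := rfl
lemma uy_4 : uy 4 = -1 := rfl
lemma uy_5 : uy 5 = 1 := rfl
lemma uz_0 : uz 0 = 0 := rfl
lemma uz_1 : uz 1 = 1 := rfl
lemma uz_2 : uz 2 = 1 := rfl
lemma uz_3 : uz 3 = 0 := rfl
lemma uz_4 : uz 4 = -1 := rfl
lemma uz_5 : uz 5 = -1 := rfl
lemma wb_0 (j : Fin 6) : wb j 0 = 0 := rfl
lemma wb_1 (j : Fin 6) : wb j 1 = (uy j + uy (j + 1)) / 8 := rfl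
lemma wb_2 (j : Fin 6) : wb j 2 = (uz j + uz (j + 1)) / 8 := rfl
lemma wb_3 (j : Fin 6) : wb j 3 = 0 := rfl

lemma wb_mem_Wd (j : Fin 6) : wb j ∈ Wd j := by
  simp only [Wd, mem_setOf_eq]
  rcases fin6_cases j with rfl | rfl | rfl | rfl | rfl | rfl <;>
  simp only [ell, add1_0, add1_1, add1_2, add1_3, add1_4, add1_5, wb_1, wb_2,
    uy_0, uy_1, uy_2, uy_3, uy_4, uy_5, uz_0, uz_1, uz_2, uz_3, uz_4, uz_5] <;>
  norm_num

lemma wb_mem_B4 (j : Fin 6) : wb j ∈ B4 := by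
  rw [mem_B4]
  rcases fin6_cases j with rfl | rfl | rfl | rfl | rfl | rfl <;>
  simp only [add1_0, add1_1, add1_2, add1_3, add1_4, add1_5, wb_0, wb_1, wb_2, wb_3,
    uy_0, uy_1, uy_2, uy_3, uy_4, uy_5, uz_0, uz_1, uz_2, uz_3, uz_4, uz_5] <;>
  norm_num

lemma rho_wb (j : Fin 6) : rho (wb j) = wb (j + 3) := by
  rcases fin6_cases j with rfl | rfl | rfl | rfl | rfl | rfl <;>
  apply ext4 <;>
  simp only [rho_0, rho_1, rho_2, rho_3, add1_0, add1_1, add1_2, add1_3, add1_4, add1_5,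
    add3_0, add3_1, add3_2, add3_3, add3_4, add3_5, wb_0, wb_1, wb_2, wb_3,
    uy_0, uy_1, uy_2, uy_3, uy_4, uy_5, uz_0, uz_1, uz_2, uz_3, uz_4, uz_5] <;>
  norm_num

/-- near `x` only the closed wedges containing `x` occur -/
lemma eventually_ClW (x : E4) : ∀ᶠ y in 𝓝 x, ∀ j, y ∈ ClW j → x ∈ ClW j := by
  rw [Filter.eventually_all]
  intro j
  by_cases h : x ∈ ClW j
  · exact Filter.Eventually.of_forall fun _ _ => h
  · filter_upwards [(isClosed_ClW j).isOpen_compl.mem_nhds h] with y hy hy'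
    exact absurd hy' hy

end EQD
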