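import Mathlib

/-!
# Definitions for project EQD (MP_d3855f_gt)

Coordinates of a point `p` of `R⁴`: `x = p 0`, `y = p 1`, `z = p 2`, `s = p 3`.
-/

open Real Set Topology

namespace EQD

/-- Euclidean four space. -/
abbrev E4 : Type := EuclideanSpace ℝ (Fin 4)
/-- Euclidean plane. -/
abbrev E2 : Type := EuclideanSpace ℝ (Fin 2)

/-- The closed unit ball `B⁴`. -/
def B4 : Set E4 := Metric.closedBall 0 1
/-- The unit sphere `S³`. -/
def S3 : Set E4 := Metric.sphere 0 1

/-- The standard involution `ρ̄` of `B⁴`, the cone of the point reflection `ρ` of `S³`. -/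
def rho (p : E4) : E4 := !₂[-p 0, -p 1, -p 2, p 3]

/-- The involution `ρ̄' = R⁻¹ ρ̄ R`. -/
def rhp (p : E4) : E4 := !₂[-p 0, p 1, -p 2, -p 3]

/-- `R`: the rotation by a quarter turn in the plane of the coordinates `1, 3`. -/
def Rq (p : E4) : E4 := !₂[p 0, -p 3, p 2, p 1]

/-- The half circle from `(1,0,0,0)` to `(-1,0,0,0)` through `(0,0,1,0)`. -/
noncomputable def hpath (t : ℝ) : E4 := !₂[cos (π * t), 0, sin (π * t), 0]

/-- the permutation `(0 1)(2 3 4)` -/
def sg : Equiv.Perm (Fin 5) where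
  toFun := ![1, 0, 3, 4, 2]
  invFun := ![1, 0, 4, 2, 3]
  left_inv := by decide
  right_inv := by decide

/-- There is a five sheeted covering of `B⁴ ∖ D` with a lift `th` of the involution `τ`,
`th² = 1`, such that transport along `hpath` followed by `th` acts on the fibre over `(1,0,0,0)`
as the permutation `(0 1)(2 3 4)`, and such that the points `0` and `2` of this fibre lie in the
same path component of the covering space. -/
def HasSymCover (D : Set E4) (τ : E4 → E4) : Prop :=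
  ∃ (C : Type) (_ : TopologicalSpace C) (p : C → ↥(B4 \ D)) (th : C → C)
    (hh : Fin 5 → unitInterval → C),
    IsCoveringMap p ∧ Continuous th ∧ (∀ c, (p (th c) : E4) = τ (p c)) ∧
    (∀ c, th (th c) = c) ∧
    (∀ i, Continuous (hh i)) ∧ (∀ i t, (p (hh i t) : E4) = hpath t) ∧
    (∀ c, (p c : E4) = hpath 0 → ∃ i, c = hh i 0) ∧
    Function.Injective (fun i => hh i 0) ∧
    (∀ i, th (hh i 1) = hh (sg i) 0) ∧ Joined (hh 0 0) (hh 2 0)

/-! ### the open book -/

/-- distance from the `s` axis -/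
noncomputable def rad (p : E4) : ℝ := √(p 0 ^ 2 + p 1 ^ 2 + p 2 ^ 2)

/-- latitude angle with respect to the `x` axis, in `[-π/2, π/2]` -/
noncomputable def lat (p : E4) : ℝ := arcsin (p 0 / rad p)

/-- distance of `(rad p, p 3)` from `(1/4, 1/2)` -/
noncomputable def mp (p : E4) : ℝ := √((rad p - 1 / 4) ^ 2 + (p 3 - 1 / 2) ^ 2)

/-- distance of `(rad p, p 3)` from `(1/4, -1/2)` -/
noncomputable def mm (p : E4) : ℝ := √((rad p - 1 / 4) ^ 2 + (p 3 + 1 / 2) ^ 2)

/-- `y` coordinate of the direction of page `j` -/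
def uy : Fin 6 → ℝ := ![1, 1, -1, -1, -1, 1]
/-- `z` coordinate of the direction of page `j` -/
def uz : Fin 6 → ℝ := ![0, 1, 1, 0, -1, -1]

/-- determinant of (direction of page `j`, `(y,z)`) -/
def ell (j : Fin 6) (p : E4) : ℝ := uy j * p 2 - uz j * p 1
/-- scalar product of (direction of page `j`, `(y,z)`) -/
def dt (j : Fin 6) (p : E4) : ℝ := uy j * p 1 + uz j * p 2

/-- open wedge between page `j` and page `j+1` -/
def Wd (j : Fin 6) : Set E4 := {p | 0 < ell j p ∧ ell (j + 1) p < 0}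
/-- closed wedge between page `j` and page `j+1` -/
def ClW (j : Fin 6) : Set E4 := {p | 0 ≤ ell j p ∧ ell (j + 1) p ≤ 0}
/-- closed page `j` -/
def Pg (j : Fin 6) : Set E4 := {p | ell j p = 0 ∧ 0 ≤ dt j p}

/-- signed latitude used on page `j` -/
noncomputable def la (j : Fin 6) (p : E4) : ℝ := if j < 3 then lat p else -lat p
/-- first radius used on page `j` -/
noncomputable def m1 (j : Fin 6) (p : E4) : ℝ := if j = 2 ∨ j = 5 then mm p else mp p
/-- second radius used on page `j` -/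
noncomputable def m2 (j : Fin 6) (p : E4) : ℝ := if j = 2 ∨ j = 5 then mp p else mm p

/-- the surface on the pages `0, 3` (`α` latitude, `m, m'` radii) -/
def CondA (M : ℝ → ℝ) (α m m' : ℝ) : Prop :=
  (α = 0 ∧ M 0 ≤ m ∧ M 0 ≤ m') ∨ (α < 0 ∧ m = M (-α)) ∨ (0 < α ∧ m' = M α)

/-- the surface on the pages `1, 2, 4, 5` -/
def CondB (M : ℝ → ℝ) (α m m' : ℝ) : Prop :=
  m = M (π - α) ∨ (0 < α ∧ m' = M (2 * π - α)) ∨ (α = 0 ∧ m' ≤ M (2 * π))

/-- the surface on page `j` -/
def Cond (M : ℝ → ℝ) (j : Fin 6) (p : E4) : Prop :=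
  if j = 0 ∨ j = 3 then CondA M (la j p) (m1 j p) (m2 j p)
  else CondB M (la j p) (m1 j p) (m2 j p)

/-- the disk in open book form -/
def Dtop (M : ℝ → ℝ) : Set E4 := {p | rad p = 0} ∪ {p | ∃ j, p ∈ Pg j ∧ Cond M j p}

open Classical in
/-- label of a point of the pages `0, 3` outside the disk -/
noncomputable def labA (M : ℝ → ℝ) (α m m' : ℝ) : Fin 3 :=
  if (0 < α ∧ M α < m') ∨ (α ≤ 0 ∧ m < M (-α)) then 0 else 1

open Classical in
/-- label of a point of the pages `1, 2, 4, 5` outside the disk -/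
noncomputable def labB (M : ℝ → ℝ) (α m m' : ℝ) : Fin 3 :=
  if m < M (π - α) then 1 else if 0 < α ∧ m' < M (2 * π - α) then 2 else 0

/-- label of a point of page `j` outside the disk -/
noncomputable def lab (M : ℝ → ℝ) (j : Fin 6) (p : E4) : Fin 3 :=
  if j = 0 ∨ j = 3 then labA M (la j p) (m1 j p) (m2 j p)
  else labB M (la j p) (m1 j p) (m2 j p)

/-- admissible radius functions -/
structure Good (M : ℝ → ℝ) : Prop where
  cont : Continuous M
  pos : ∀ t, 0 < M t
  lt : ∀ t, M t < 1 / 8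
  ab : M (π / 2) < M (3 * π / 2)

/-- the ten label tuples along the binding -/
def tab : Fin 10 → Fin 6 → Fin 3 :=
  ![![0,0,0,1,0,0], ![0,0,2,1,1,0], ![0,1,2,0,1,0], ![0,2,0,1,0,1], ![1,2,1,1,0,1],
    ![1,0,0,0,0,0], ![1,1,0,0,0,2], ![0,1,0,0,1,2], ![1,0,1,0,2,0], ![1,0,1,1,2,1]]

/-- reference points on the binding, one for each label tuple -/
noncomputable def rfx (M : ℝ → ℝ) : Fin 10 → ℝ :=
  let c := (M (π / 2) + M (3 * π / 2)) / 2
  ![1, 1/4 + c, 1/4, 1/4 + c, 1/4, -1, -(1/4 + c), -(1/4), -(1/4 + c), -(1/4)]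

/-- last coordinate of the reference points -/
noncomputable def rfs : Fin 10 → ℝ :=
  ![0, 1/2, 1/2, -(1/2), -(1/2), 0, 1/2, 1/2, -(1/2), -(1/2)]

/-- reference points -/
noncomputable def rf (M : ℝ → ℝ) (i : Fin 10) : E4 := !₂[rfx M i, 0, 0, rfs i]

/-- base point of the wedge `j` -/
noncomputable def wb (j : Fin 6) : E4 :=
  !₂[0, (uy j + uy (j + 1)) / 8, (uz j + uz (j + 1)) / 8, 0]

end EQD
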