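import Pool.Agent.H73.EQD.Basic
import Pool.Agent.H73.EQD.Stmts

/-!
# Module NEX: there is no symmetric covering for `rho`
-/

open Real Set Topology

namespace EQD

namespace NX

/-! ### consequences of module TC -/

section general

variable {X : Set E4} {C : Type} [TopologicalSpace C] {p : C → ↥X}

lemma tr_proj (h : S_TC) (hp : IsCoveringMap p) (c : C) (y : ↥X)
    (hs : segment ℝ (p c : E4) (y : E4) ⊆ X) : p (tr hp c y) = y :=
  (h X C _ p hp).1 c y hs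

lemma tr_self (h : S_TC) (hp : IsCoveringMap p) (c : C) : tr hp c (p c) = c :=
  (h X C _ p hp).2.1 c

lemma tr_path (h : S_TC) (hp : IsCoveringMap p) (c : C) (γ : C(unitInterval, ↥X)) (z : ↥X)
    (h1 : ∀ t, segment ℝ (p c : E4) (γ t : E4) ⊆ X)
    (h2 : ∀ t, segment ℝ (γ t : E4) (z : E4) ⊆ X) :
    tr hp (tr hp c (γ 0)) z = tr hp (tr hp c (γ 1)) z := by
  have hc := (h X C _ p hp).2.2.2.2.2 c γ h1
  have := (h X C _ p hp).2.2.1 ⟨fun t => tr hp c (γ t), hc⟩ z (by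
    intro t
    change segment ℝ (p (tr hp c (γ t)) : E4) (z : E4) ⊆ X
    rw [tr_proj h hp c (γ t) (h1 t)]
    exact h2 t)
  exact this

lemma tr_tri (h : S_TC) (hp : IsCoveringMap p) (c : C) (y z : ↥X)
    (h1 : segment ℝ (p c : E4) (y : E4) ⊆ X)
    (h2 : ∀ w ∈ segment ℝ (p c : E4) (y : E4), segment ℝ w (z : E4) ⊆ X) :
    tr hp (tr hp c y) z = tr hp c z := by
  have hmem : ∀ t, ((segC (p c) y h1 t : ↥X) : E4) ∈ segment ℝ (p c : E4) (y : E4) := by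
    intro t
    rw [segment_eq_image_lineMap]
    exact ⟨(t : ℝ), t.2, rfl⟩
  have h0 : segC (p c) y h1 0 = p c := by
    apply Subtype.ext; simp [segC]
  have h1' : segC (p c) y h1 1 = y := by
    apply Subtype.ext; simp [segC]
  have := tr_path h hp c (segC (p c) y h1) z
    (fun t => ((convex_segment (p c : E4) (y : E4)).segment_subset
      (left_mem_segment ℝ _ _) (hmem t)).trans h1)
    (fun t => h2 _ (hmem t))
  rw [h0, h1', tr_self h hp] at this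
  exact this.symm

lemma tr_inv (h : S_TC) (hp : IsCoveringMap p) (c : C) (y : ↥X)
    (h1 : segment ℝ (p c : E4) (y : E4) ⊆ X) : tr hp (tr hp c y) (p c) = c := by
  rw [tr_tri h hp c y (p c) h1, tr_self h hp]
  intro w hw
  exact ((convex_segment (p c : E4) (y : E4)).segment_subset hw
    (left_mem_segment ℝ _ _)).trans h1

end general

lemma fin3_cases (l : Fin 3) : l = 0 ∨ l = 1 ∨ l = 2 := by revert l; decide

lemma add31 (j : Fin 6) : j + 3 + 1 = j + 1 + 3 := by revert j; decide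

lemma alg1 : ∀ p : Equiv.Perm (Fin 5), sg * p * sg⁻¹ * (sg * sg) * (sg * p⁻¹ * sg⁻¹) * p = 1 →
    p = sg⁻¹ * sg⁻¹ := by
  decide +kernel

lemma alg2 : ∀ v : Equiv.Perm (Fin 5),
    sg⁻¹ * sg⁻¹ * (sg * v * sg⁻¹) * v * (sg * v⁻¹ * sg⁻¹) = 1 → v = sg * sg := by
  decide +kernel

lemma exists_tab : ∀ (j : Fin 6) (l : Fin 3), (j = 0 ∨ j = 3 → l ≠ 2) → ∃ k, l = tab k j := by
  decide

/-- the data of a symmetric covering, together with the modules used here -/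
structure NCtx (M : ℝ → ℝ) (C : Type) [TopologicalSpace C] where
  hM : Good M
  hTC : S_TC
  hCLO : S_CLO
  hREF : S_REF
  hCONN : S_CONN
  p : C → ↥(B4 \ Dtop M)
  th : C → C
  hh : Fin 5 → unitInterval → C
  hp : IsCoveringMap p
  th_cont : Continuous th
  p_th : ∀ c, (p (th c) : E4) = rho (p c)
  th_th : ∀ c, th (th c) = c
  hh_cont : ∀ i, Continuous (hh i)
  p_hh : ∀ i t, (p (hh i t) : E4) = hpath t
  fib : ∀ c, (p c : E4) = hpath 0 → ∃ i, c = hh i 0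
  inj : Function.Injective (fun i => hh i 0)
  th_hh : ∀ i, th (hh i 1) = hh (sg i) 0
  joined : Joined (hh 0 0) (hh 2 0)

lemma seg_wd (hCLO : S_CLO) {M : ℝ → ℝ} (hM : Good M) {j : Fin 6} {x y : E4}
    (hx : x ∈ B4 \ Dtop M) (hxj : x ∈ ClW j) (hy : y ∈ B4) (hyj : y ∈ Wd j) :
    segment ℝ x y ⊆ B4 \ Dtop M := by
  intro w hw
  refine ⟨convex_B4.segment_subset hx.1 hy hw, ?_⟩
  rw [segment_eq_image_lineMap] at hw
  obtain ⟨t, ht, rfl⟩ := hw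
  rcases eq_or_lt_of_le ht.1 with h0 | h0
  · rw [← h0, AffineMap.lineMap_apply_zero]
    exact hx.2
  · exact (hCLO M hM).2 j _ (lineMap_mem_Wd hxj hyj h0 ht.2)

lemma seg_wd' (hCLO : S_CLO) {M : ℝ → ℝ} (hM : Good M) {j : Fin 6} {x y : E4}
    (hx : x ∈ B4 \ Dtop M) (hxj : x ∈ ClW j) (hy : y ∈ B4) (hyj : y ∈ Wd j) :
    segment ℝ y x ⊆ B4 \ Dtop M := by
  rw [segment_symm]; exact seg_wd hCLO hM hx hxj hy hyj

namespace NCtx

variable {M : ℝ → ℝ} {C : Type} [TopologicalSpace C] (S : NCtx M C)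

/-- base point of the wedge -/
noncomputable def wbX (j : Fin 6) : ↥(B4 \ Dtop M) :=
  ⟨wb j, wb_mem_B4 j, (S.hCLO M S.hM).2 j _ (wb_mem_Wd j)⟩

lemma wbX_val (j : Fin 6) : (S.wbX j : E4) = wb j := rfl

/-- segments from the base point of a wedge -/
lemma segw {j : Fin 6} {x : ↥(B4 \ Dtop M)} (hx : (x : E4) ∈ ClW j) :
    segment ℝ (x : E4) (S.wbX j : E4) ⊆ B4 \ Dtop M :=
  seg_wd S.hCLO S.hM x.2 hx (wb_mem_B4 j) (wb_mem_Wd j)

lemma segw' {j : Fin 6} {x : ↥(B4 \ Dtop M)} (hx : (x : E4) ∈ ClW j) :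
    segment ℝ (S.wbX j : E4) (x : E4) ⊆ B4 \ Dtop M :=
  seg_wd' S.hCLO S.hM x.2 hx (wb_mem_B4 j) (wb_mem_Wd j)

lemma hpath_zero : hpath 0 = !₂[1, 0, 0, 0] := by
  simp [hpath]

lemma hpath_ClW (j : Fin 6) : hpath 0 ∈ ClW j := by
  apply binding_ClW <;> simp [hpath]

lemma hpath_ClW1 (t : unitInterval) : hpath t ∈ ClW 1 := by
  have h : 0 ≤ sin (π * t) := by
    apply sin_nonneg_of_nonneg_of_le_pi
    · exact mul_nonneg pi_pos.le t.2.1
    · nlinarith [pi_pos, t.2.2]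
  have e1 : hpath t 1 = 0 := rfl
  have e2 : hpath t 2 = sin (π * t) := rfl
  refine ⟨?_, ?_⟩
  · rw [ell1, e1, e2]; linarith
  · rw [add1_1, ell2, e1, e2]; linarith

/-- the frames -/
noncomputable def F (j : Fin 6) (i : Fin 5) : C := tr S.hp (S.hh i 0) (S.wbX j)

lemma p_hh_ClW (i : Fin 5) (j : Fin 6) : (S.p (S.hh i 0) : E4) ∈ ClW j := by
  rw [S.p_hh]
  exact hpath_ClW j

lemma p_F (j : Fin 6) (i : Fin 5) : S.p (S.F j i) = S.wbX j :=
  tr_proj S.hTC S.hp _ _ (S.segw (S.p_hh_ClW i j))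

/-- the base point -/
noncomputable def bX : ↥(B4 \ Dtop M) := S.p (S.hh 0 0)

lemma p_hh0 (i : Fin 5) : S.p (S.hh i 0) = S.bX := by
  apply Subtype.ext
  rw [S.p_hh, bX, S.p_hh]

lemma tr_F_b (j : Fin 6) (i : Fin 5) : tr S.hp (S.F j i) S.bX = S.hh i 0 := by
  have := tr_inv S.hTC S.hp (S.hh i 0) (S.wbX j) (S.segw (S.p_hh_ClW i j))
  rwa [S.p_hh0] at this

lemma F_surj (j : Fin 6) (c : C) (hc : S.p c = S.wbX j) : ∃ i, c = S.F j i := by
  have hb : (S.bX : E4) ∈ ClW j := by rw [← S.p_hh0 0]; exact S.p_hh_ClW 0 j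
  have hs : segment ℝ (S.p c : E4) (S.bX : E4) ⊆ B4 \ Dtop M := by rw [hc]; exact S.segw' hb
  have h1 := tr_proj S.hTC S.hp c S.bX hs
  obtain ⟨i, hi⟩ := S.fib (tr S.hp c S.bX) (by rw [h1, ← S.p_hh0 0, S.p_hh]; rfl)
  refine ⟨i, ?_⟩
  have h2 := tr_inv S.hTC S.hp c S.bX hs
  rw [hi, hc] at h2
  exact h2.symm

lemma F_inj (j : Fin 6) : Function.Injective (S.F j) := by
  intro i i' h
  apply S.inj
  change S.hh i 0 = S.hh i' 0
  rw [← S.tr_F_b j i, ← S.tr_F_b j i', h]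

/-- transport from the frame of a wedge to a point of the closed wedge, and back -/
lemma tr_back (j : Fin 6) (i : Fin 5) {v : ↥(B4 \ Dtop M)} (hv : (v : E4) ∈ ClW j) :
    tr S.hp (tr S.hp (S.F j i) v) (S.wbX j) = S.F j i := by
  have := tr_inv S.hTC S.hp (S.F j i) v (by rw [S.p_F]; exact S.segw' hv)
  rwa [S.p_F] at this

lemma p_trF (j : Fin 6) (i : Fin 5) {v : ↥(B4 \ Dtop M)} (hv : (v : E4) ∈ ClW j) :
    S.p (tr S.hp (S.F j i) v) = v :=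
  tr_proj S.hTC S.hp _ _ (by rw [S.p_F]; exact S.segw' hv)

lemma trF_inj (j : Fin 6) {v : ↥(B4 \ Dtop M)} (hv : (v : E4) ∈ ClW j) :
    Function.Injective (fun i => tr S.hp (S.F j i) v) := by
  intro i i' h
  apply S.F_inj j
  rw [← S.tr_back j i hv, ← S.tr_back j i' hv]
  exact congrArg (fun c => tr S.hp c (S.wbX j)) h

/-- crossing a page -/
lemma exists_cross (j : Fin 6) (v : ↥(B4 \ Dtop M)) (hv : (v : E4) ∈ Pg (j + 1)) :
    ∃ σ : Equiv.Perm (Fin 5), ∀ i, tr S.hp (S.F j i) v = tr S.hp (S.F (j + 1) (σ i)) v := by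
  obtain ⟨hv0, hv1⟩ := Pg_iff.1 hv
  have h1 : ∀ i, ∃ k, tr S.hp (tr S.hp (S.F j i) v) (S.wbX (j + 1)) = S.F (j + 1) k := by
    intro i
    apply S.F_surj
    apply tr_proj S.hTC S.hp
    rw [S.p_trF j i hv0]
    exact S.segw hv1
  choose f hf using h1
  have h2 : ∀ i, tr S.hp (S.F j i) v = tr S.hp (S.F (j + 1) (f i)) v := by
    intro i
    rw [← hf i]
    have := tr_inv S.hTC S.hp (tr S.hp (S.F j i) v) (S.wbX (j + 1))
      (by rw [S.p_trF j i hv0]; exact S.segw hv1)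
    rw [S.p_trF j i hv0] at this
    exact this.symm
  have hinj : Function.Injective f := by
    intro i i' h
    apply S.trF_inj j hv0
    change tr S.hp (S.F j i) v = tr S.hp (S.F j i') v
    rw [h2 i, h2 i', h]
  exact ⟨Equiv.ofBijective f (Finite.injective_iff_bijective.1 hinj), h2⟩

lemma cross_path (j : Fin 6) (v v' : ↥(B4 \ Dtop M))
    (hJ : JoinedIn (Pg (j + 1) ∩ (B4 \ Dtop M)) (v : E4) (v' : E4))
    {i k : Fin 5} (h : tr S.hp (S.F j i) v = tr S.hp (S.F (j + 1) k) v) :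
    tr S.hp (S.F j i) v' = tr S.hp (S.F (j + 1) k) v' := by
  obtain ⟨δ, hδ⟩ := hJ
  have hv := hδ 0
  have hv' := hδ 1
  rw [δ.source] at hv
  rw [δ.target] at hv'
  obtain ⟨a0, a1⟩ := Pg_iff.1 hv.1
  obtain ⟨b0, b1⟩ := Pg_iff.1 hv'.1
  let γ : C(unitInterval, ↥(B4 \ Dtop M)) := ⟨fun t => ⟨δ t, (hδ t).2⟩, by fun_prop⟩
  have g0 : γ 0 = v := Subtype.ext δ.source
  have g1 : γ 1 = v' := Subtype.ext δ.target
  have h1 := tr_path S.hTC S.hp (S.F j i) γ (S.wbX (j + 1))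
    (fun t => by rw [S.p_F]; exact S.segw' (Pg_iff.1 (hδ t).1).1)
    (fun t => S.segw (Pg_iff.1 (hδ t).1).2)
  rw [g0, g1, h, S.tr_back (j + 1) k a1] at h1
  rw [h1]
  have := tr_inv S.hTC S.hp (tr S.hp (S.F j i) v') (S.wbX (j + 1))
      (by rw [S.p_trF j i b0]; exact S.segw b1)
  rw [S.p_trF j i b0] at this
  exact this.symm

lemma exists_G (j : Fin 6) (l : Fin 3) : ∃ σ : Equiv.Perm (Fin 5), ∀ v : ↥(B4 \ Dtop M),
    (v : E4) ∈ Pg (j + 1) → lab M (j + 1) v = l →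
      ∀ i, tr S.hp (S.F j i) v = tr S.hp (S.F (j + 1) (σ i)) v := by
  by_cases h : ∃ v : ↥(B4 \ Dtop M), (v : E4) ∈ Pg (j + 1) ∧ lab M (j + 1) v = l
  · obtain ⟨v, hv, hl⟩ := h
    obtain ⟨σ, hσ⟩ := S.exists_cross j v hv
    refine ⟨σ, fun v' hv' hl' i => ?_⟩
    exact S.cross_path j v v' (S.hCONN M S.hM (j + 1) v v' hv v.2.1 v.2.2 hv' v'.2.1 v'.2.2
      (hl.trans hl'.symm)) (hσ i)
  · refine ⟨1, fun v hv hl => ?_⟩
    exact absurd ⟨v, hv, hl⟩ h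

/-- the crossing permutations -/
noncomputable def G (j : Fin 6) (l : Fin 3) : Equiv.Perm (Fin 5) := (S.exists_G j l).choose

lemma G_spec (j : Fin 6) {v : ↥(B4 \ Dtop M)} (hv : (v : E4) ∈ Pg (j + 1)) (i : Fin 5) :
    tr S.hp (S.F j i) v = tr S.hp (S.F (j + 1) (S.G j (lab M (j + 1) v) i)) v :=
  (S.exists_G j _).choose_spec v hv rfl i

/-- reference points -/
noncomputable def rX (k : Fin 10) : ↥(B4 \ Dtop M) :=
  ⟨rf M k, (S.hREF M S.hM k).1, (S.hREF M S.hM k).2.1⟩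

lemma rX_Pg (k : Fin 10) (j : Fin 6) : (S.rX k : E4) ∈ Pg j :=
  binding_Pg rfl rfl j

lemma rX_ClW (k : Fin 10) (j : Fin 6) : (S.rX k : E4) ∈ ClW j :=
  binding_ClW rfl rfl j

lemma G_rX (k : Fin 10) (j : Fin 6) (i : Fin 5) :
    tr S.hp (S.F j i) (S.rX k) = tr S.hp (S.F (j + 1) (S.G j (tab k (j + 1)) i)) (S.rX k) := by
  have := S.G_spec j (S.rX_Pg k (j + 1)) i
  rwa [show lab M (j + 1) (S.rX k : E4) = tab k (j + 1) from (S.hREF M S.hM k).2.2 (j + 1)] at this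

lemma telescope (k : Fin 10) :
    S.G 5 (tab k 0) * S.G 4 (tab k 5) * S.G 3 (tab k 4) * S.G 2 (tab k 3) * S.G 1 (tab k 2) *
      S.G 0 (tab k 1) = 1 := by
  ext1 i
  apply S.trF_inj 0 (S.rX_ClW k 0)
  have h0 := S.G_rX k 0 i
  have h1 := S.G_rX k 1
  have h2 := S.G_rX k 2
  have h3 := S.G_rX k 3
  have h4 := S.G_rX k 4
  have h5 := S.G_rX k 5
  rw [add1_0] at h0
  simp only [add1_1] at h1
  simp only [add1_2] at h2
  simp only [add1_3] at h3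
  simp only [add1_4] at h4
  simp only [add1_5] at h5
  rw [h1, h2, h3, h4, h5] at h0
  simp only [Equiv.Perm.coe_mul, Function.comp_apply, Equiv.Perm.coe_one, id_eq]
  exact h0.symm

lemma rX_zero : S.rX 0 = S.bX := by
  apply Subtype.ext
  rw [← S.p_hh0 0, S.p_hh]
  simp [rX, rf, rfx, rfs, hpath]

lemma G_base (j : Fin 6) : S.G j (tab 0 (j + 1)) = 1 := by
  ext1 i
  have h := S.G_rX 0 j i
  rw [S.rX_zero, S.tr_F_b, S.tr_F_b] at h
  exact (S.inj h).symm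

/-! ### the involution -/

lemma rho_val (x : ↥(B4 \ Dtop M)) : rho (x : E4) ∈ B4 \ Dtop M :=
  ⟨rho_mem_B4.2 x.2.1, fun h => x.2.2 (Dtop_rho.1 h)⟩

lemma th_tr (c : C) (y : ↥(B4 \ Dtop M)) (hs : segment ℝ (S.p c : E4) (y : E4) ⊆ B4 \ Dtop M) :
    S.th (tr S.hp c y) = tr S.hp (S.th c) ⟨rho y, rho_val y⟩ :=
  (S.hTC _ C _ S.p S.hp).2.2.2.1 S.th rho S.th_cont S.p_th
    (fun x y t => rho_lineMap x y t) c y (rho_val y) hs

lemma rho_wbX (j : Fin 6) : (⟨rho (S.wbX j : E4), rho_val (S.wbX j)⟩ : ↥(B4 \ Dtop M)) =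
    S.wbX (j + 3) := by
  apply Subtype.ext
  exact rho_wb j

lemma exists_T (j : Fin 6) : ∃ σ : Equiv.Perm (Fin 5), ∀ i, S.th (S.F j i) = S.F (j + 3) (σ i) := by
  have h1 : ∀ i, ∃ k, S.th (S.F j i) = S.F (j + 3) k := by
    intro i
    apply S.F_surj
    apply Subtype.ext
    rw [S.p_th, S.p_F]
    exact rho_wb j
  choose f hf using h1
  have hinj : Function.Injective f := by
    intro i i' h
    apply S.F_inj j
    rw [← S.th_th (S.F j i), ← S.th_th (S.F j i'), hf i, hf i', h]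
  exact ⟨Equiv.ofBijective f (Finite.injective_iff_bijective.1 hinj), hf⟩

/-- the involution in the frames -/
noncomputable def T (j : Fin 6) : Equiv.Perm (Fin 5) := (S.exists_T j).choose

lemma T_spec (j : Fin 6) (i : Fin 5) : S.th (S.F j i) = S.F (j + 3) (S.T j i) :=
  (S.exists_T j).choose_spec i

lemma T_T (j : Fin 6) : S.T (j + 3) * S.T j = 1 := by
  ext1 i
  apply S.F_inj j
  have h : j + 3 + 3 = j := by revert j; decide
  have h1 := S.T_spec (j + 3) (S.T j i)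
  rw [← S.T_spec j i, S.th_th, h] at h1
  simp only [Equiv.Perm.coe_mul, Function.comp_apply, Equiv.Perm.coe_one, id_eq]
  exact h1.symm

lemma T_one : S.T 1 = sg := by
  ext1 i
  apply S.F_inj 4
  have h := S.T_spec 1 i
  rw [add3_1] at h
  rw [← h]
  have h2 := (S.hTC _ C _ S.p S.hp).2.2.1 ⟨S.hh i, S.hh_cont i⟩ (S.wbX 1) (by
    intro t
    apply S.segw
    change (S.p (S.hh i t) : E4) ∈ ClW 1
    rw [S.p_hh]
    exact hpath_ClW1 t)
  have h3 : S.F 1 i = tr S.hp (S.hh i 1) (S.wbX 1) := h2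
  have hs : segment ℝ (S.p (S.hh i 1) : E4) (S.wbX 1 : E4) ⊆ B4 \ Dtop M := by
    apply S.segw
    rw [S.p_hh]
    exact hpath_ClW1 1
  rw [h3, S.th_tr _ _ hs, S.th_hh, S.rho_wbX]
  rfl

/-- the symmetry relation, for labels that occur on the page -/
lemma G_T (j : Fin 6) {v : ↥(B4 \ Dtop M)} (hv : (v : E4) ∈ Pg (j + 1)) :
    S.G (j + 3) (lab M (j + 1) v) * S.T j = S.T (j + 1) * S.G j (lab M (j + 1) v) := by
  have e : j + 3 + 1 = j + 1 + 3 := add31 j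
  obtain ⟨hv0, hv1⟩ := Pg_iff.1 hv
  let v' : ↥(B4 \ Dtop M) := ⟨rho v, rho_val v⟩
  have hv' : (v' : E4) ∈ Pg (j + 3 + 1) := by rw [e]; exact Pg_rho.2 hv
  obtain ⟨hv0', hv1'⟩ := Pg_iff.1 hv'
  ext1 i
  apply S.trF_inj (j + 3 + 1) hv1'
  simp only [Equiv.Perm.coe_mul, Function.comp_apply]
  have h1 := S.G_spec (j + 3) hv' (S.T j i)
  have hl : lab M (j + 3 + 1) (v' : E4) = lab M (j + 1) v := by
    rw [e]; exact lab_rho M (j + 1) v
  rw [hl] at h1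
  rw [← h1, ← S.T_spec]
  have h2 := S.th_tr (S.F j i) v (by rw [S.p_F]; exact S.segw' hv0)
  change tr S.hp (S.th (S.F j i)) v' = _
  change S.th (tr S.hp (S.F j i) v) = tr S.hp (S.th (S.F j i)) v' at h2
  rw [← h2, S.G_spec j hv i]
  rw [S.th_tr _ v (by rw [S.p_F]; exact S.segw' hv1), S.T_spec]
  rw [e]

lemma G_T_tab (j : Fin 6) (k : Fin 10) :
    S.G (j + 3) (tab k (j + 1)) * S.T j = S.T (j + 1) * S.G j (tab k (j + 1)) := by
  have := S.G_T j (S.rX_Pg k (j + 1))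
  rwa [show lab M (j + 1) (S.rX k : E4) = tab k (j + 1) from (S.hREF M S.hM k).2.2 (j + 1)] at this

/-! ### computing the crossing permutations -/

lemma G5_0 : S.G 5 0 = 1 := S.G_base 5
lemma G0_0 : S.G 0 0 = 1 := S.G_base 0
lemma G1_0 : S.G 1 0 = 1 := S.G_base 1
lemma G2_1 : S.G 2 1 = 1 := S.G_base 2
lemma G3_0 : S.G 3 0 = 1 := S.G_base 3
lemma G4_0 : S.G 4 0 = 1 := S.G_base 4

lemma T_zero : S.T 0 = sg := by
  have h : S.G 3 0 * S.T 0 = S.T 1 * S.G 0 0 := S.G_T_tab 0 0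
  rwa [S.G3_0, S.G0_0, S.T_one, one_mul, mul_one] at h

lemma T_two : S.T 2 = sg := by
  have h : S.G 4 0 * S.T 1 = S.T 2 * S.G 1 0 := S.G_T_tab 1 0
  rw [S.G4_0, S.G1_0, S.T_one, one_mul, mul_one] at h
  exact h.symm

lemma T_three : S.T 3 = sg⁻¹ := by
  have h : S.T 3 * S.T 0 = 1 := S.T_T 0
  rw [S.T_zero] at h
  exact eq_inv_of_mul_eq_one_left h

lemma G5_1 : S.G 5 1 = sg⁻¹ * sg⁻¹ := by
  have h : S.G 5 1 * S.T 2 = S.T 3 * S.G 2 1 := S.G_T_tab 2 0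
  rw [S.G2_1, S.T_two, S.T_three, mul_one] at h
  exact eq_mul_inv_of_mul_eq h

lemma G2_0 : S.G 2 0 = sg * sg := by
  have h : S.G 5 0 * S.T 2 = S.T 3 * S.G 2 0 := S.G_T_tab 2 2
  rw [S.G5_0, S.T_two, S.T_three, one_mul] at h
  exact (eq_inv_mul_iff_mul_eq.1 h).symm

lemma G3_1 : S.G 3 1 = sg * S.G 0 1 * sg⁻¹ := by
  have h : S.G 3 1 * S.T 0 = S.T 1 * S.G 0 1 := S.G_T_tab 0 2
  rw [S.T_zero, S.T_one] at h
  exact eq_mul_inv_of_mul_eq h

lemma G3_2 : S.G 3 2 = sg * S.G 0 2 * sg⁻¹ := by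
  have h : S.G 3 2 * S.T 0 = S.T 1 * S.G 0 2 := S.G_T_tab 0 3
  rw [S.T_zero, S.T_one] at h
  exact eq_mul_inv_of_mul_eq h

lemma G4_1 : S.G 4 1 = sg * S.G 1 1 * sg⁻¹ := by
  have h : S.G 4 1 * S.T 1 = S.T 2 * S.G 1 1 := S.G_T_tab 1 4
  rw [S.T_two, S.T_one] at h
  exact eq_mul_inv_of_mul_eq h

lemma G4_2 : S.G 4 2 = sg * S.G 1 2 * sg⁻¹ := by
  have h : S.G 4 2 * S.T 1 = S.T 2 * S.G 1 2 := S.G_T_tab 1 1
  rw [S.T_two, S.T_one] at h
  exact eq_mul_inv_of_mul_eq h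

lemma G1_2' : S.G 1 2 = sg * (S.G 0 1)⁻¹ * sg⁻¹ := by
  have h : S.G 5 0 * S.G 4 0 * S.G 3 1 * S.G 2 1 * S.G 1 2 * S.G 0 0 = 1 := S.telescope 1
  rw [S.G5_0, S.G4_0, S.G2_1, S.G0_0, one_mul, one_mul, mul_one, mul_one, S.G3_1] at h
  have := eq_inv_of_mul_eq_one_right h
  rw [this]
  group

lemma G0_1 : S.G 0 1 = sg⁻¹ * sg⁻¹ := by
  have h : S.G 5 0 * S.G 4 0 * S.G 3 1 * S.G 2 0 * S.G 1 2 * S.G 0 1 = 1 := S.telescope 2
  rw [S.G5_0, S.G4_0, one_mul, one_mul, S.G3_1, S.G2_0, S.G1_2'] at h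
  exact alg1 _ h

lemma G1_2 : S.G 1 2 = sg * sg := by
  rw [S.G1_2', S.G0_1]; decide

lemma G0_2' : S.G 0 2 = sg * (S.G 1 1)⁻¹ * sg⁻¹ := by
  have h : S.G 5 0 * S.G 4 1 * S.G 3 0 * S.G 2 1 * S.G 1 0 * S.G 0 2 = 1 := S.telescope 3
  rw [S.G5_0, S.G3_0, S.G2_1, S.G1_0, one_mul, mul_one, mul_one, mul_one, S.G4_1] at h
  have := eq_inv_of_mul_eq_one_right h
  rw [this]
  group

lemma G1_1 : S.G 1 1 = sg * sg := by
  have h : S.G 5 1 * S.G 4 1 * S.G 3 0 * S.G 2 1 * S.G 1 1 * S.G 0 2 = 1 := S.telescope 4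
  rw [S.G5_1, S.G3_0, S.G2_1, mul_one, mul_one, S.G4_1, S.G0_2'] at h
  exact alg2 _ h

lemma G0_2 : S.G 0 2 = sg⁻¹ * sg⁻¹ := by
  rw [S.G0_2', S.G1_1]; decide

/-- all crossing permutations fix `0` -/
lemma G_fix (j : Fin 6) (l : Fin 3) (h : j + 1 = 0 ∨ j + 1 = 3 → l ≠ 2) : S.G j l 0 = 0 := by
  have l3 := fin3_cases l
  rcases fin6_cases j with rfl | rfl | rfl | rfl | rfl | rfl <;>
  rcases l3 with rfl | rfl | rfl
  · rw [S.G0_0]; rfl
  · rw [S.G0_1]; rfl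
  · rw [S.G0_2]; rfl
  · rw [S.G1_0]; rfl
  · rw [S.G1_1]; rfl
  · rw [S.G1_2]; rfl
  · rw [S.G2_0]; rfl
  · rw [S.G2_1]; rfl
  · exact absurd rfl (h (by decide))
  · rw [S.G3_0]; rfl
  · rw [S.G3_1, S.G0_1]; rfl
  · rw [S.G3_2, S.G0_2]; rfl
  · rw [S.G4_0]; rfl
  · rw [S.G4_1, S.G1_1]; rfl
  · rw [S.G4_2, S.G1_2]; rfl
  · rw [S.G5_0]; rfl
  · rw [S.G5_1]; rfl
  · exact absurd rfl (h (by decide))

lemma lab_ne_two (j : Fin 6) (x : E4) (h : j = 0 ∨ j = 3) : lab M j x ≠ 2 := by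
  rw [lab, if_pos h, labA]
  split_ifs <;> decide

lemma F_step (j : Fin 6) (x : ↥(B4 \ Dtop M)) (h0 : (x : E4) ∈ ClW j) (h1 : (x : E4) ∈ ClW (j + 1)) :
    tr S.hp (S.F j 0) x = tr S.hp (S.F (j + 1) 0) x := by
  have h := S.G_spec j (Pg_iff.2 ⟨h0, h1⟩) 0
  rwa [S.G_fix j _ (fun h => lab_ne_two (j + 1) x h)] at h

lemma F_indep (i j : Fin 6) (x : ↥(B4 \ Dtop M)) (hi : (x : E4) ∈ ClW i) (hj : (x : E4) ∈ ClW j) :
    tr S.hp (S.F i 0) x = tr S.hp (S.F j 0) x := by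
  rcases two_wedges hi hj with h | h | h | ⟨h1, h2⟩
  · rw [h]
  · subst h
    exact (S.F_step j x hj hi).symm
  · subst h
    exact S.F_step i x hi hj
  · have hs : ∀ i : Fin 6, tr S.hp (S.F i 0) x = tr S.hp (S.F (i + 1) 0) x := fun i =>
      S.F_step i x (binding_ClW h1 h2 i) (binding_ClW h1 h2 (i + 1))
    have h0 : tr S.hp (S.F 0 0) x = tr S.hp (S.F 1 0) x := hs 0
    have h1 : tr S.hp (S.F 1 0) x = tr S.hp (S.F 2 0) x := hs 1
    have h2 : tr S.hp (S.F 2 0) x = tr S.hp (S.F 3 0) x := hs 2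
    have h3 : tr S.hp (S.F 3 0) x = tr S.hp (S.F 4 0) x := hs 3
    have h4 : tr S.hp (S.F 4 0) x = tr S.hp (S.F 5 0) x := hs 4
    have hall : ∀ i : Fin 6, tr S.hp (S.F i 0) x = tr S.hp (S.F 0 0) x := by
      intro i
      rcases fin6_cases i with rfl | rfl | rfl | rfl | rfl | rfl
      · rfl
      · rw [h0]
      · rw [h0, h1]
      · rw [h0, h1, h2]
      · rw [h0, h1, h2, h3]
      · rw [h0, h1, h2, h3, h4]
    rw [hall i, hall j]

/-- the section -/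
noncomputable def sec (x : ↥(B4 \ Dtop M)) : C :=
  tr S.hp (S.F (wedge_cover (x : E4)).choose 0) x

lemma sec_eq (x : ↥(B4 \ Dtop M)) {j : Fin 6} (hj : (x : E4) ∈ ClW j) :
    S.sec x = tr S.hp (S.F j 0) x :=
  S.F_indep _ j x (wedge_cover (x : E4)).choose_spec hj

lemma p_sec (x : ↥(B4 \ Dtop M)) : S.p (S.sec x) = x := by
  obtain ⟨j, hj⟩ := wedge_cover (x : E4)
  rw [S.sec_eq x hj]
  exact S.p_trF j 0 hj

include S in
lemma eventually_seg (x : ↥(B4 \ Dtop M)) :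
    ∀ᶠ y : ↥(B4 \ Dtop M) in 𝓝 x, segment ℝ (x : E4) (y : E4) ⊆ B4 \ Dtop M := by
  have h1 : (Dtop M)ᶜ ∈ 𝓝 (x : E4) := (S.hCLO M S.hM).1.isOpen_compl.mem_nhds x.2.2
  obtain ⟨ε, hε, hb⟩ := Metric.mem_nhds_iff.1 h1
  have h2 : ∀ᶠ y : ↥(B4 \ Dtop M) in 𝓝 x, (y : E4) ∈ Metric.ball (x : E4) ε :=
    continuous_subtype_val.continuousAt.eventually (Metric.ball_mem_nhds _ hε)
  filter_upwards [h2] with y hy w hw
  exact ⟨convex_B4.segment_subset x.2.1 y.2.1 hw,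
    hb ((convex_ball (x : E4) ε).segment_subset (Metric.mem_ball_self hε) hy hw)⟩

lemma continuous_sec : Continuous S.sec := by
  rw [continuous_iff_continuousAt]
  intro x
  have h1 := (S.hTC _ C _ S.p S.hp).2.2.2.2.1 (S.sec x) (by
    rw [S.p_sec]; exact S.eventually_seg x)
  rw [S.p_sec] at h1
  have h2 : (fun y => tr S.hp (S.sec x) y) =ᶠ[𝓝 x] S.sec := by
    have h3 : ∀ᶠ y : ↥(B4 \ Dtop M) in 𝓝 x, ∀ j, (y : E4) ∈ ClW j → (x : E4) ∈ ClW j :=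
      continuous_subtype_val.continuousAt.eventually (eventually_ClW (x : E4))
    filter_upwards [h3, S.eventually_seg x] with y hy hs
    obtain ⟨j, hj⟩ := wedge_cover (y : E4)
    have hxj := hy j hj
    rw [S.sec_eq y hj, S.sec_eq x hxj]
    apply tr_tri S.hTC S.hp
    · rw [S.p_F]; exact S.segw' hxj
    · rw [S.p_F]
      intro w hw
      have hwX := S.segw' hxj hw
      rw [segment_symm, segment_eq_image_lineMap] at hw
      obtain ⟨t, ht, rfl⟩ := hw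
      rcases eq_or_lt_of_le ht.1 with h0 | h0
      · rw [← h0, AffineMap.lineMap_apply_zero]
        exact hs
      · exact seg_wd' S.hCLO S.hM y.2 hj hwX.1 (lineMap_mem_Wd hxj (wb_mem_Wd j) h0 ht.2)
  exact h1.congr h2

include S in
lemma contradiction : False := by
  obtain ⟨δ⟩ := S.joined
  have h1 : (S.sec ∘ S.p ∘ δ) = δ := by
    refine S.hp.eq_of_comp_eq (g₁ := S.sec ∘ S.p ∘ δ) (g₂ := δ)
      (S.continuous_sec.comp (S.hp.continuous.comp δ.continuous)) δ.continuous ?_ 0 ?_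
    · funext t
      simp only [Function.comp_apply, S.p_sec]
    · simp only [Function.comp_apply, δ.source]
      rw [S.p_hh0, S.sec_eq _ (j := 0), S.tr_F_b]
      rw [← S.p_hh0 0]; exact S.p_hh_ClW 0 0
  have h2 := congrFun h1 1
  simp only [Function.comp_apply, δ.target] at h2
  rw [S.p_hh0, S.sec_eq _ (j := 0), S.tr_F_b] at h2
  · exact absurd (S.inj h2) (by decide)
  · rw [← S.p_hh0 0]; exact S.p_hh_ClW 0 0

end NCtx

end NX

/-- Module NEX. -/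
theorem nex (hTC : S_TC) (hCLO : S_CLO) (hREF : S_REF) (hCONN : S_CONN) : S_NEX := by
  rintro M hM ⟨C, _, p, th, hh, hp, hth, hpth, hthth, hhc, hph, hfib, hinj, hthh, hJ⟩
  exact NX.NCtx.contradiction (M := M) (C := C)
    ⟨hM, hTC, hCLO, hREF, hCONN, p, th, hh, hp, hth, hpth, hthth, hhc, hph, hfib, hinj, hthh, hJ⟩

end EQD
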